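import Mathlib.Tactic
import Mathlib.Combinatorics.Enumerative.Catalan.Basic
import Mathlib.Data.Nat.Choose.Central
import Mathlib.Analysis.SpecificLimits.Normed

/-!
# The analytic part: sums with weights `2^{-n}`
-/

set_option autoImplicit false

namespace Pool.Agent.Helper45K9.PP

open Finset

theorem conv2 (F : ℕ → ℕ → ℝ) (M : ℕ) :
    ∑ N ∈ range M, ∑ r ∈ range ((N + 1) / 2), F r (N - 1 - 2 * r) =
      ∑ r ∈ range M, ∑ m ∈ range (M - 1 - 2 * r), F r m := by
  rw [Finset.sum_sigma', Finset.sum_sigma']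
  refine Finset.sum_nbij' (fun x => ⟨x.2, x.1 - 1 - 2 * x.2⟩)
    (fun y => ⟨y.2 + 1 + 2 * y.1, y.1⟩) ?_ ?_ ?_ ?_ ?_
  · rintro ⟨N, r⟩ h
    simp only [Finset.mem_sigma, Finset.mem_range] at h ⊢
    omega
  · rintro ⟨r, m⟩ h
    simp only [Finset.mem_sigma, Finset.mem_range] at h ⊢
    omega
  · rintro ⟨N, r⟩ h
    simp only [Finset.mem_sigma, Finset.mem_range] at h
    have : N - 1 - 2 * r + 1 + 2 * r = N := by omega
    simp only [this]
  · rintro ⟨r, m⟩ h
    have : m + 1 + 2 * r - 1 - 2 * r = m := by omega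
    simp only [this]
  · rintro ⟨N, r⟩ h
    rfl

theorem conv3 (F : ℕ → ℕ → ℝ) (M : ℕ) :
    ∑ N ∈ range M, ∑ r ∈ range ((N + 1) / 3), F r (N - 2 - 3 * r) =
      ∑ r ∈ range M, ∑ m ∈ range (M - 2 - 3 * r), F r m := by
  rw [Finset.sum_sigma', Finset.sum_sigma']
  refine Finset.sum_nbij' (fun x => ⟨x.2, x.1 - 2 - 3 * x.2⟩)
    (fun y => ⟨y.2 + 2 + 3 * y.1, y.1⟩) ?_ ?_ ?_ ?_ ?_
  · rintro ⟨N, r⟩ h
    simp only [Finset.mem_sigma, Finset.mem_range] at h ⊢
    omega
  · rintro ⟨r, m⟩ h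
    simp only [Finset.mem_sigma, Finset.mem_range] at h ⊢
    omega
  · rintro ⟨N, r⟩ h
    simp only [Finset.mem_sigma, Finset.mem_range] at h
    have : N - 2 - 3 * r + 2 + 3 * r = N := by omega
    simp only [this]
  · rintro ⟨r, m⟩ h
    have : m + 2 + 3 * r - 2 - 3 * r = m := by omega
    simp only [this]
  · rintro ⟨N, r⟩ h
    rfl

theorem catalan_le_four_pow (n : ℕ) : catalan n ≤ 4 ^ n := by
  have h := succ_mul_catalan_eq_centralBinom n
  have h2 : Nat.centralBinom n ≤ 4 ^ n := Nat.centralBinom_le_four_pow n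
  nlinarith [Nat.zero_le (catalan n)]

theorem catalan_four : catalan 4 = 14 := by
  rw [catalan_succ]
  simp [Fin.sum_univ_succ, catalan_two, catalan_three, catalan_one]

theorem zsum_aux (R : ℕ) : ∑ r ∈ range (R + 5), (catalan r : ℝ) / 8 ^ (r + 1) +
    1 / 8 * (1 / 2) ^ (R + 4) ≤ 4 / 25 := by
  induction R with
  | zero =>
    simp only [zero_add, Finset.sum_range_succ, Finset.sum_range_zero, catalan_zero, catalan_one,
      catalan_two, catalan_three, catalan_four]
    norm_num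
  | succ R ih =>
    rw [show R + 1 + 5 = (R + 5) + 1 by ring, Finset.sum_range_succ]
    have h1 : (catalan (R + 5) : ℝ) / 8 ^ (R + 5 + 1) ≤ 1 / 8 * (1 / 2) ^ (R + 5) := by
      rw [div_le_iff₀ (by positivity)]
      have h2 : (catalan (R + 5) : ℝ) ≤ 4 ^ (R + 5) := by
        exact_mod_cast catalan_le_four_pow (R + 5)
      refine h2.trans (le_of_eq ?_)
      rw [show (8 : ℝ) ^ (R + 5 + 1) = 8 * 8 ^ (R + 5) by ring]
      rw [show (1 : ℝ) / 8 * (1 / 2) ^ (R + 5) * (8 * 8 ^ (R + 5)) =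
        (1 / 2 * 8) ^ (R + 5) by rw [mul_pow]; ring]
      norm_num
    have h3 : (1 : ℝ) / 8 * (1 / 2) ^ (R + 4) = 1 / 8 * (1 / 2) ^ (R + 5) +
      1 / 8 * (1 / 2) ^ (R + 1 + 4) := by ring
    linarith

theorem zsum (R : ℕ) : ∑ r ∈ range R, (catalan r : ℝ) / 8 ^ (r + 1) ≤ 4 / 25 := by
  have h := zsum_aux R
  have h1 : ∑ r ∈ range R, (catalan r : ℝ) / 8 ^ (r + 1) ≤
      ∑ r ∈ range (R + 5), (catalan r : ℝ) / 8 ^ (r + 1) := by
    apply Finset.sum_le_sum_of_subset_of_nonneg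
    · intro x hx
      rw [Finset.mem_range] at hx ⊢
      omega
    · intros
      positivity
  have h2 : (0 : ℝ) ≤ 1 / 8 * (1 / 2) ^ (R + 4) := by positivity
  linarith

/-- The bound for the elements of order 3 -/
theorem t_bound (t tp : ℕ → ℕ) (W wp : ℕ → ℝ) (h0 : t 0 = 1) (hW0 : W 0 = 1)
    (htW : ∀ n, (t n : ℝ) ≤ W n)
    (h1 : ∀ N, wp N ≤ ∑ r ∈ range ((N + 1) / 3), (catalan r : ℝ) *
        (25 / 4 * W (N - 2 - 3 * r) - 5 * t (N - 2 - 3 * r)))
    (h2 : ∀ N, W (N + 1) = wp N + (t (N + 1) - tp N))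
    (h3 : ∀ N, t (N + 1) ≤ t N + 2 * tp N) (M : ℕ) :
    ∑ n ∈ range M, (t n : ℝ) / 2 ^ n ≤ 10 := by
  -- the bound for `wp`
  have hwp : ∀ M, ∑ N ∈ range M, wp N / 2 ^ (N + 1) ≤
      ∑ n ∈ range M, W n / 2 ^ n - 4 / 5 * ∑ n ∈ range M, (t n : ℝ) / 2 ^ n := by
    intro M
    have e1 : ∑ N ∈ range M, wp N / 2 ^ (N + 1) ≤
        ∑ N ∈ range M, ∑ r ∈ range ((N + 1) / 3), (catalan r : ℝ) / 8 ^ (r + 1) *
        ((25 / 4 * W (N - 2 - 3 * r) - 5 * t (N - 2 - 3 * r)) / 2 ^ (N - 2 - 3 * r)) := by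
      apply Finset.sum_le_sum
      intro N _
      rw [div_le_iff₀ (by positivity)]
      refine (h1 N).trans (le_of_eq ?_)
      rw [Finset.sum_mul]
      apply Finset.sum_congr rfl
      intro r hr
      rw [Finset.mem_range] at hr
      have e : (2 : ℝ) ^ (N + 1) = 8 ^ (r + 1) * 2 ^ (N - 2 - 3 * r) := by
        rw [show (8 : ℝ) = 2 ^ 3 by norm_num, ← pow_mul, ← pow_add]
        congr 1
        omega
      rw [e]
      field_simp
    rw [conv3 (fun r m => (catalan r : ℝ) / 8 ^ (r + 1) *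
      ((25 / 4 * W m - 5 * t m) / 2 ^ m))] at e1
    refine e1.trans ?_
    have hnn : ∀ m, 0 ≤ (25 / 4 * W m - 5 * t m) / 2 ^ m := by
      intro m
      apply div_nonneg _ (by positivity)
      have := htW m
      have h0' : (0 : ℝ) ≤ t m := by positivity
      nlinarith
    have e2 : ∑ r ∈ range M, ∑ m ∈ range (M - 2 - 3 * r), (catalan r : ℝ) / 8 ^ (r + 1) *
        ((25 / 4 * W m - 5 * t m) / 2 ^ m) ≤
        ∑ r ∈ range M, (catalan r : ℝ) / 8 ^ (r + 1) *
          ∑ m ∈ range M, ((25 / 4 * W m - 5 * t m) / 2 ^ m) := by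
      apply Finset.sum_le_sum
      intro r _
      rw [← Finset.mul_sum]
      apply mul_le_mul_of_nonneg_left _ (by positivity)
      apply Finset.sum_le_sum_of_subset_of_nonneg
      · intro x hx
        rw [Finset.mem_range] at hx ⊢
        omega
      · intros
        apply hnn
    refine e2.trans ?_
    rw [← Finset.sum_mul]
    have e3 := mul_le_mul_of_nonneg_right (zsum M)
      (Finset.sum_nonneg (fun m (_ : m ∈ range M) => hnn m))
    refine e3.trans (le_of_eq ?_)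
    have e4 : ∑ m ∈ range M, ((25 / 4 * W m - 5 * t m) / 2 ^ m) =
        25 / 4 * ∑ n ∈ range M, W n / 2 ^ n - 5 * ∑ n ∈ range M, (t n : ℝ) / 2 ^ n := by
      rw [Finset.mul_sum, Finset.mul_sum, ← Finset.sum_sub_distrib]
      apply Finset.sum_congr rfl
      intro m _
      ring
    rw [e4]
    ring
  -- the bound for `tp`
  have htp : ∀ M, ∑ N ∈ range M, (tp N : ℝ) / 2 ^ (N + 1) ≤
      1 / 5 * ∑ n ∈ range M, (t n : ℝ) / 2 ^ n := by
    intro M
    have e1 : ∑ n ∈ range (M + 1), W n / 2 ^ n = 1 + ∑ N ∈ range M, wp N / 2 ^ (N + 1) +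
        (∑ n ∈ range (M + 1), (t n : ℝ) / 2 ^ n - 1) - ∑ N ∈ range M, (tp N : ℝ) / 2 ^ (N + 1) := by
      rw [Finset.sum_range_succ' (fun n => W n / 2 ^ n),
        Finset.sum_range_succ' (fun n => (t n : ℝ) / 2 ^ n), h0, hW0]
      have : ∑ k ∈ range M, W (k + 1) / 2 ^ (k + 1) = ∑ N ∈ range M, wp N / 2 ^ (N + 1) +
        ∑ k ∈ range M, (t (k + 1) : ℝ) / 2 ^ (k + 1) - ∑ N ∈ range M, (tp N : ℝ) / 2 ^ (N + 1) := by
        rw [← Finset.sum_add_distrib, ← Finset.sum_sub_distrib]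
        apply Finset.sum_congr rfl
        intro k _
        rw [h2 k]
        ring
      rw [this]
      simp
      ring
    rw [Finset.sum_range_succ, Finset.sum_range_succ] at e1
    have e2 := hwp M
    have e3 : (t M : ℝ) / 2 ^ M ≤ W M / 2 ^ M :=
      div_le_div_of_nonneg_right (htW M) (by positivity)
    linarith
  -- conclusion
  have hstep : ∀ M, ∑ n ∈ range (M + 1), (t n : ℝ) / 2 ^ n ≤
      1 + 9 / 10 * ∑ n ∈ range M, (t n : ℝ) / 2 ^ n := by
    intro M
    rw [Finset.sum_range_succ', h0]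
    have e1 : ∑ k ∈ range M, (t (k + 1) : ℝ) / 2 ^ (k + 1) ≤
        1 / 2 * ∑ n ∈ range M, (t n : ℝ) / 2 ^ n +
          2 * ∑ N ∈ range M, (tp N : ℝ) / 2 ^ (N + 1) := by
      rw [Finset.mul_sum, Finset.mul_sum, ← Finset.sum_add_distrib]
      apply Finset.sum_le_sum
      intro k _
      rw [div_le_iff₀ (by positivity)]
      have : (t (k + 1) : ℝ) ≤ t k + 2 * tp k := by exact_mod_cast h3 k
      refine this.trans (le_of_eq ?_)
      rw [pow_succ]
      field_simp
    have e2 := htp M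
    simp only [Nat.cast_one, pow_zero, div_one]
    linarith
  induction M with
  | zero => simp
  | succ M ih => linarith [hstep M]

/-- The bound for the elements of order at least 4. -/
theorem o_bound (o : ℕ → ℕ) (h0 : o 0 = 0)
    (h1 : ∀ N, o (N + 1) ≤ o N + (N + 1) * ∑ m ∈ range ((N + 1) / 4 + 1), catalan m) :
    ∃ K : ℝ, ∀ M, ∑ n ∈ range M, (o n : ℝ) / 2 ^ n ≤ K := by
  have hgeo : ∀ k : ℕ, ∑ m ∈ range (k + 1), catalan m ≤ 2 * 4 ^ k := by
    intro k
    induction k with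
    | zero => simp
    | succ k ih =>
      rw [Finset.sum_range_succ, pow_succ]
      have := catalan_le_four_pow (k + 1)
      rw [pow_succ] at this
      omega
  have hgeo' : ∀ N : ℕ, ((∑ m ∈ range ((N + 1) / 4 + 1), catalan m : ℕ) : ℝ) ≤
      2 * (3 / 2) ^ (N + 1) := by
    intro N
    have e1 : ((∑ m ∈ range ((N + 1) / 4 + 1), catalan m : ℕ) : ℝ) ≤ 2 * 4 ^ ((N + 1) / 4) := by
      exact_mod_cast hgeo ((N + 1) / 4)
    have e2 : (4 : ℝ) ^ ((N + 1) / 4) ≤ (3 / 2) ^ (N + 1) := by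
      calc (4 : ℝ) ^ ((N + 1) / 4) ≤ ((3 / 2) ^ 4) ^ ((N + 1) / 4) :=
            pow_le_pow_left₀ (by norm_num) (by norm_num) _
        _ = (3 / 2) ^ (4 * ((N + 1) / 4)) := by rw [← pow_mul]
        _ ≤ (3 / 2) ^ (N + 1) := pow_le_pow_right₀ (by norm_num) (by omega)
    linarith
  have hsum : Summable (fun n : ℕ => (n : ℝ) * (3 / 4) ^ n) := by
    have := summable_pow_mul_geometric_of_norm_lt_one 1 (r := (3 / 4 : ℝ))
      (by rw [Real.norm_of_nonneg] <;> norm_num)
    simpa using this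
  have hsum' : Summable (fun n : ℕ => ((n + 1 : ℕ) : ℝ) * (3 / 4) ^ (n + 1)) :=
    (summable_nat_add_iff 1).mpr hsum
  refine ⟨2 * (2 * ∑' n : ℕ, ((n + 1 : ℕ) : ℝ) * (3 / 4) ^ (n + 1)), fun M => ?_⟩
  have hstep : ∀ M, ∑ n ∈ range (M + 1), (o n : ℝ) / 2 ^ n ≤
      1 / 2 * ∑ n ∈ range M, (o n : ℝ) / 2 ^ n +
        2 * ∑' n : ℕ, ((n + 1 : ℕ) : ℝ) * (3 / 4) ^ (n + 1) := by
    intro M
    rw [Finset.sum_range_succ', h0]
    have e1 : ∑ k ∈ range M, (o (k + 1) : ℝ) / 2 ^ (k + 1) ≤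
        1 / 2 * ∑ n ∈ range M, (o n : ℝ) / 2 ^ n +
          2 * ∑ n ∈ range M, ((n + 1 : ℕ) : ℝ) * (3 / 4) ^ (n + 1) := by
      rw [Finset.mul_sum, Finset.mul_sum, ← Finset.sum_add_distrib]
      apply Finset.sum_le_sum
      intro k _
      rw [div_le_iff₀ (by positivity)]
      have e2 : (o (k + 1) : ℝ) ≤ o k +
          (k + 1 : ℕ) * ((∑ m ∈ range ((k + 1) / 4 + 1), catalan m : ℕ) : ℝ) := by
        exact_mod_cast h1 k
      have e3 : ((k + 1 : ℕ) : ℝ) * ((∑ m ∈ range ((k + 1) / 4 + 1), catalan m : ℕ) : ℝ) ≤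
          (k + 1 : ℕ) * (2 * (3 / 2) ^ (k + 1)) :=
        mul_le_mul_of_nonneg_left (hgeo' k) (by positivity)
      have e4 : (1 / 2 * ((o k : ℝ) / 2 ^ k) + 2 * (((k + 1 : ℕ) : ℝ) * (3 / 4) ^ (k + 1))) *
          2 ^ (k + 1) = o k + (k + 1 : ℕ) * (2 * (3 / 2) ^ (k + 1)) := by
        have e5 : (3 / 2 : ℝ) ^ (k + 1) = (3 / 4) ^ (k + 1) * 2 ^ (k + 1) := by
          rw [← mul_pow]; norm_num
        rw [e5, add_mul]
        congr 1
        · rw [pow_succ]; field_simp
        · ring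
      linarith
    have e2 := hsum'.sum_le_tsum (range M) (fun i _ => by positivity)
    simp only [Nat.cast_zero, pow_zero, div_one, add_zero]
    linarith
  have hK : 0 ≤ ∑' n : ℕ, ((n + 1 : ℕ) : ℝ) * (3 / 4) ^ (n + 1) :=
    tsum_nonneg (fun n => by positivity)
  induction M with
  | zero => simp; positivity
  | succ M ih => linarith [hstep M]

/-- `β_R = binom(2R, R)/4^R`. -/
noncomputable def beta (R : ℕ) : ℝ := (Nat.centralBinom R : ℝ) / 4 ^ R

theorem beta_succ (R : ℕ) : beta (R + 1) = beta R * ((2 * R + 1) / (2 * (R + 1))) := by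
  unfold beta
  have h := Nat.succ_mul_centralBinom_succ R
  have h' : ((R : ℝ) + 1) * (Nat.centralBinom (R + 1) : ℝ) =
      2 * (2 * R + 1) * (Nat.centralBinom R : ℝ) := by exact_mod_cast h
  have hR : ((R : ℝ) + 1) ≠ 0 := by positivity
  rw [pow_succ]
  field_simp
  linarith

theorem catalan_eq_beta (R : ℕ) : (catalan R : ℝ) / 4 ^ R = 2 * (beta R - beta (R + 1)) := by
  rw [beta_succ]
  unfold beta
  have h := succ_mul_catalan_eq_centralBinom R
  have h' : ((R : ℝ) + 1) * (catalan R : ℝ) = (Nat.centralBinom R : ℝ) := by exact_mod_cast h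
  have hR : ((R : ℝ) + 1) ≠ 0 := by positivity
  rw [← h']
  field_simp
  ring

theorem beta_zero : beta 0 = 1 := by simp [beta]

theorem sum_catalan_quarter (R : ℕ) :
    ∑ r ∈ range R, (catalan r : ℝ) / 4 ^ r = 2 * (1 - beta R) := by
  induction R with
  | zero => simp [beta_zero]
  | succ R ih => rw [Finset.sum_range_succ, ih, catalan_eq_beta]; ring

theorem beta_nonneg (R : ℕ) : 0 ≤ beta R := by unfold beta; positivity

theorem beta_sq (R : ℕ) : beta R ^ 2 * (2 * R + 1) ≤ 1 := by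
  induction R with
  | zero => simp [beta_zero]
  | succ R ih =>
    rw [beta_succ]
    have hR : (0 : ℝ) < (R : ℝ) + 1 := by positivity
    have e : (beta R * ((2 * R + 1) / (2 * (R + 1)))) ^ 2 * (2 * ((R + 1 : ℕ) : ℝ) + 1) =
        (beta R ^ 2 * (2 * R + 1)) * (((2 * R + 1) * (2 * R + 3)) / (4 * (R + 1) ^ 2)) := by
      push_cast
      field_simp
      ring
    rw [e]
    have h1 : ((2 * (R : ℝ) + 1) * (2 * R + 3)) / (4 * (R + 1) ^ 2) ≤ 1 := by
      rw [div_le_one (by positivity)]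
      nlinarith
    have h2 : 0 ≤ ((2 * (R : ℝ) + 1) * (2 * R + 3)) / (4 * (R + 1) ^ 2) := by positivity
    have h3 : 0 ≤ beta R ^ 2 * (2 * R + 1) := by positivity
    nlinarith

/-- Properties of the number of involutions. -/
theorem i_le (i : ℕ → ℕ) (h0 : i 0 = 1)
    (h1 : ∀ N, i (N + 1) = i N + ∑ r ∈ range ((N + 1) / 2), catalan r * i (N - 1 - 2 * r))
    (n : ℕ) : i n ≤ 2 ^ n := by
  induction n using Nat.strong_induction_on with
  | _ n ih =>
    rcases n with _ | N
    · simp [h0]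
    · have hR : (i (N + 1) : ℝ) ≤ 2 ^ (N + 1) := by
        rw [h1 N]
        push_cast
        have e1 : (i N : ℝ) ≤ 2 ^ N := by exact_mod_cast ih N (by omega)
        have e2 : ∑ r ∈ range ((N + 1) / 2), (catalan r : ℝ) * (i (N - 1 - 2 * r) : ℝ) ≤
            ∑ r ∈ range ((N + 1) / 2), (catalan r : ℝ) / 4 ^ r * 2 ^ (N - 1) := by
          apply Finset.sum_le_sum
          intro r hr
          rw [Finset.mem_range] at hr
          have e3 : (i (N - 1 - 2 * r) : ℝ) ≤ 2 ^ (N - 1 - 2 * r) := by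
            exact_mod_cast ih (N - 1 - 2 * r) (by omega)
          have e4 : (2 : ℝ) ^ (N - 1) = 4 ^ r * 2 ^ (N - 1 - 2 * r) := by
            rw [show (4 : ℝ) = 2 ^ 2 by norm_num, ← pow_mul, ← pow_add]
            congr 1
            omega
          rw [e4]
          have e5 : (catalan r : ℝ) / 4 ^ r * (4 ^ r * 2 ^ (N - 1 - 2 * r)) =
            catalan r * 2 ^ (N - 1 - 2 * r) := by field_simp
          rw [e5]
          exact mul_le_mul_of_nonneg_left e3 (by positivity)
        rw [← Finset.sum_mul, sum_catalan_quarter] at e2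
        have e6 := beta_nonneg ((N + 1) / 2)
        rcases N with _ | N
        · simp at e2 ⊢
          norm_num [h0] at e1 ⊢
        · rw [show N + 1 - 1 = N by omega] at e2 ⊢
          have e7 : (0 : ℝ) < 2 ^ N := by positivity
          have e8 : 2 * (1 - beta ((N + 1 + 1) / 2)) * 2 ^ N ≤ 2 ^ (N + 1) := by
            rw [pow_succ]
            nlinarith
          rw [pow_succ (2 : ℝ) (N + 1)]
          linarith
      exact_mod_cast hR

theorem i_unbounded (i : ℕ → ℕ) (h0 : i 0 = 1)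
    (h1 : ∀ N, i (N + 1) = i N + ∑ r ∈ range ((N + 1) / 2), catalan r * i (N - 1 - 2 * r))
    (B : ℝ) : ∃ M, B < ∑ n ∈ range M, (i n : ℝ) / 2 ^ n := by
  by_contra hcon
  push Not at hcon
  set V : ℕ → ℝ := fun M => ∑ n ∈ range M, (i n : ℝ) / 2 ^ n with hV
  have hmono : Monotone V := by
    intro a b hab
    apply Finset.sum_le_sum_of_subset_of_nonneg
    · intro x hx
      rw [Finset.mem_range] at hx ⊢
      omega
    · intros; positivity
  have hbdd : BddAbove (Set.range V) := ⟨B, by rintro _ ⟨M, rfl⟩; exact hcon M⟩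
  have hL := tendsto_atTop_ciSup hmono hbdd
  set L := ⨆ M, V M with hLdef
  have hle : ∀ M, V M ≤ L := fun M => le_ciSup hbdd M
  have hL0 : 0 ≤ L := by
    have := hle 0
    simpa [hV] using this
  -- the recursive inequality
  have hrec : ∀ R M, 1 + 1 / 2 * V (M + 2 * R) + 1 / 2 * (1 - beta R) * V (M - 1) ≤
      V (M + 2 * R + 1) := by
    intro R M
    have e1 : V (M + 2 * R + 1) = 1 + 1 / 2 * V (M + 2 * R) +
        ∑ N ∈ range (M + 2 * R), ∑ r ∈ range ((N + 1) / 2), (catalan r : ℝ) / 4 ^ (r + 1) *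
          ((i (N - 1 - 2 * r) : ℝ) / 2 ^ (N - 1 - 2 * r)) := by
      simp only [hV]
      rw [Finset.sum_range_succ', h0, Finset.mul_sum, add_comm, add_assoc, ← Finset.sum_add_distrib]
      congr 1
      · simp
      · apply Finset.sum_congr rfl
        intro N _
        rw [h1 N]
        push_cast
        rw [add_div]
        congr 1
        · rw [pow_succ]; field_simp
        · rw [Finset.sum_div]
          apply Finset.sum_congr rfl
          intro r hr
          rw [Finset.mem_range] at hr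
          have e4 : (2 : ℝ) ^ (N + 1) = 4 ^ (r + 1) * 2 ^ (N - 1 - 2 * r) := by
            rw [show (4 : ℝ) = 2 ^ 2 by norm_num, ← pow_mul, ← pow_add]
            congr 1
            omega
          rw [e4]
          field_simp
    rw [e1, conv2 (fun r m => (catalan r : ℝ) / 4 ^ (r + 1) * ((i m : ℝ) / 2 ^ m))]
    have e2 : 1 / 2 * (1 - beta R) * V (M - 1) ≤ ∑ r ∈ range (M + 2 * R),
        ∑ m ∈ range (M + 2 * R - 1 - 2 * r), (catalan r : ℝ) / 4 ^ (r + 1) *
          ((i m : ℝ) / 2 ^ m) := by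
      calc 1 / 2 * (1 - beta R) * V (M - 1)
          = ∑ r ∈ range R, (catalan r : ℝ) / 4 ^ (r + 1) * V (M - 1) := by
            rw [← Finset.sum_mul]
            congr 1
            have := sum_catalan_quarter R
            have e : ∑ r ∈ range R, (catalan r : ℝ) / 4 ^ (r + 1) =
                1 / 4 * ∑ r ∈ range R, (catalan r : ℝ) / 4 ^ r := by
              rw [Finset.mul_sum]
              apply Finset.sum_congr rfl
              intro r _
              rw [pow_succ]; field_simp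
            rw [e, this]; ring
        _ ≤ ∑ r ∈ range R, ∑ m ∈ range (M + 2 * R - 1 - 2 * r), (catalan r : ℝ) / 4 ^ (r + 1) *
          ((i m : ℝ) / 2 ^ m) := by
            apply Finset.sum_le_sum
            intro r hr
            rw [Finset.mem_range] at hr
            rw [← Finset.mul_sum]
            apply mul_le_mul_of_nonneg_left _ (by positivity)
            apply hmono
            omega
        _ ≤ _ := by
            apply Finset.sum_le_sum_of_subset_of_nonneg
            · intro x hx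
              rw [Finset.mem_range] at hx ⊢
              omega
            · intros
              apply Finset.sum_nonneg
              intros
              positivity
    linarith
  have hlim : ∀ R, 1 + 1 / 2 * L + 1 / 2 * (1 - beta R) * L ≤ L := by
    intro R
    have t1 : Filter.Tendsto (fun M => 1 + 1 / 2 * V (M + 2 * R) +
        1 / 2 * (1 - beta R) * V (M - 1)) Filter.atTop
        (nhds (1 + 1 / 2 * L + 1 / 2 * (1 - beta R) * L)) := by
      apply Filter.Tendsto.add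
      · apply Filter.Tendsto.const_add
        apply Filter.Tendsto.const_mul
        exact (Filter.tendsto_add_atTop_iff_nat (2 * R)).mpr hL
      · apply Filter.Tendsto.const_mul
        exact hL.comp (Filter.tendsto_sub_atTop_nat 1)
    have t2 : Filter.Tendsto (fun M => V (M + 2 * R + 1)) Filter.atTop (nhds L) :=
      (Filter.tendsto_add_atTop_iff_nat (2 * R + 1)).mpr hL
    exact le_of_tendsto_of_tendsto' t1 t2 (hrec R)
  -- contradiction
  obtain ⟨R, hR⟩ := exists_nat_gt (L ^ 2)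
  have h2 := hlim R
  have h3 := beta_sq R
  have h4 := beta_nonneg R
  have h5 : 2 ≤ beta R * L := by linarith
  have h6 : 4 ≤ (beta R * L) ^ 2 := by nlinarith
  have h7 : (beta R * L) ^ 2 = beta R ^ 2 * L ^ 2 := by ring
  have h8 : beta R ^ 2 * L ^ 2 ≤ beta R ^ 2 * (2 * R + 1) := by
    apply mul_le_mul_of_nonneg_left _ (by positivity)
    have : (0 : ℝ) ≤ R := by positivity
    linarith
  linarith

/-- The main analytic lemma: the strong avoiders are too numerous. -/
theorem main_analysis (i t o q s : ℕ → ℕ) (hi0 : i 0 = 1)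
    (hi : ∀ N, i (N + 1) = i N + ∑ r ∈ range ((N + 1) / 2), catalan r * i (N - 1 - 2 * r))
    (him : ∀ N, i N ≤ i (N + 1))
    (T : ℝ) (ht : ∀ M, ∑ n ∈ range M, (t n : ℝ) / 2 ^ n ≤ T)
    (K : ℝ) (ho : ∀ M, ∑ n ∈ range M, (o n : ℝ) / 2 ^ n ≤ K)
    (hq : ∀ n, q n ≤ i n + t n + o n)
    (hs : ∀ m, s (m + 5) + (i (m + 6) - i (m + 5)) + 2 * s (m + 3) + 2 * s m ≤ s (m + 6))
    (n₀ : ℕ) (h : ∀ n, n₀ ≤ n → (15 / 16 : ℝ) * s n ≤ q (n + 1)) : False := by
  -- notation
  set U : ℕ → ℝ := fun M => ∑ n ∈ range M, (s n : ℝ) / 2 ^ n with hU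
  set V : ℕ → ℝ := fun M => ∑ n ∈ range M, (i n : ℝ) / 2 ^ n with hV
  have hT0 : 0 ≤ T := by simpa using ht 0
  have hK0 : 0 ≤ K := by simpa using ho 0
  have hUs : ∀ M, U (M + 1) = U M + (s M : ℝ) / 2 ^ M := fun M => Finset.sum_range_succ _ _
  have hVs : ∀ M, V (M + 1) = V M + (i M : ℝ) / 2 ^ M := fun M => Finset.sum_range_succ _ _
  have hV0 : ∀ M, 0 ≤ V M := fun M => Finset.sum_nonneg (fun n _ => by positivity)
  have hU0 : ∀ M, 0 ≤ U M := fun M => Finset.sum_nonneg (fun n _ => by positivity)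
  have hi1 : ∀ n, (i n : ℝ) / 2 ^ n ≤ 1 := by
    intro n
    rw [div_le_one (by positivity)]
    exact_mod_cast i_le i hi0 hi n
  have hin : ∀ n, 0 ≤ (i n : ℝ) / 2 ^ n := fun n => by positivity
  have hsn : ∀ n, 0 ≤ (s n : ℝ) / 2 ^ n := fun n => by positivity
  have ht1 : ∀ n, (t n : ℝ) / 2 ^ n ≤ T := by
    intro n
    have := ht (n + 1)
    rw [Finset.sum_range_succ] at this
    have h0 : 0 ≤ ∑ x ∈ range n, (t x : ℝ) / 2 ^ x := Finset.sum_nonneg (fun n _ => by positivity)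
    linarith
  have ho1 : ∀ n, (o n : ℝ) / 2 ^ n ≤ K := by
    intro n
    have := ho (n + 1)
    rw [Finset.sum_range_succ] at this
    have h0 : 0 ≤ ∑ x ∈ range n, (o x : ℝ) / 2 ^ x := Finset.sum_nonneg (fun n _ => by positivity)
    linarith
  -- pointwise upper bound for `s`
  have hup : ∀ n, n₀ ≤ n → (s n : ℝ) / 2 ^ n ≤ 32 / 15 * ((i (n + 1) : ℝ) / 2 ^ (n + 1) +
      (t (n + 1) : ℝ) / 2 ^ (n + 1) + (o (n + 1) : ℝ) / 2 ^ (n + 1)) := by
    intro n hn
    have e1 := h n hn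
    have e2 : (q (n + 1) : ℝ) ≤ i (n + 1) + t (n + 1) + o (n + 1) := by exact_mod_cast hq (n + 1)
    rw [← add_div, ← add_div, div_le_iff₀ (by positivity)]
    rw [pow_succ]
    have e3 : 32 / 15 * (((i (n + 1) : ℝ) + t (n + 1) + o (n + 1)) / (2 ^ n * 2)) * 2 ^ n =
      16 / 15 * ((i (n + 1) : ℝ) + t (n + 1) + o (n + 1)) := by
      field_simp
      ring
    rw [e3]
    linarith
  -- the sequence `s n / 2 ^ n` is bounded
  obtain ⟨B, hB⟩ : ∃ B : ℝ, ∀ n, (s n : ℝ) / 2 ^ n ≤ B := by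
    refine ⟨U n₀ + 32 / 15 * (1 + T + K), fun n => ?_⟩
    by_cases hn : n₀ ≤ n
    · have := hup n hn
      have e1 := hi1 (n + 1)
      have e2 := ht1 (n + 1)
      have e3 := ho1 (n + 1)
      have := hU0 n₀
      linarith
    · have e1 : (s n : ℝ) / 2 ^ n ≤ U n₀ :=
        Finset.single_le_sum (f := fun n => (s n : ℝ) / 2 ^ n) (fun i _ => by positivity)
          (Finset.mem_range.mpr (by omega))
      have : 0 ≤ 32 / 15 * (1 + T + K) := by positivity
      linarith
  -- summed upper bound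
  have hUV : ∀ M, U M ≤ U n₀ + 32 / 15 * (V (M + 1) + T + K) := by
    intro M
    by_cases hM : n₀ ≤ M
    · have e1 : ∀ M, n₀ ≤ M → U M ≤ U n₀ + 32 / 15 * (V (M + 1) +
          ∑ n ∈ range (M + 1), (t n : ℝ) / 2 ^ n + ∑ n ∈ range (M + 1), (o n : ℝ) / 2 ^ n) := by
        intro M hM
        induction M, hM using Nat.le_induction with
        | base =>
          have := hV0 (n₀ + 1)
          have h1 : 0 ≤ ∑ x ∈ range (n₀ + 1), (t x : ℝ) / 2 ^ x :=
            Finset.sum_nonneg (fun n _ => by positivity)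
          have h2 : 0 ≤ ∑ x ∈ range (n₀ + 1), (o x : ℝ) / 2 ^ x :=
            Finset.sum_nonneg (fun n _ => by positivity)
          linarith
        | succ M hM ih =>
          rw [hUs M, hVs (M + 1), Finset.sum_range_succ (fun n => (t n : ℝ) / 2 ^ n) (M + 1),
            Finset.sum_range_succ (fun n => (o n : ℝ) / 2 ^ n) (M + 1)]
          have := hup M hM
          linarith
      have e2 := e1 M hM
      have e3 := ht (M + 1)
      have e4 := ho (M + 1)
      linarith
    · have e1 : U M ≤ U n₀ := by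
        apply Finset.sum_le_sum_of_subset_of_nonneg
        · intro x hx
          rw [Finset.mem_range] at hx ⊢
          omega
        · intros; positivity
      have := hV0 (M + 1)
      have : 0 ≤ 32 / 15 * (V (M + 1) + T + K) := by positivity
      linarith
  -- summed lower bound
  have hlow : ∀ M, U (M + 6) - U 6 ≥ 1 / 2 * (U (M + 5) - U 5) +
      ((V (M + 6) - V 6) - 1 / 2 * (V (M + 5) - V 5)) + 1 / 4 * (U (M + 3) - U 3) +
      1 / 32 * U M := by
    intro M
    induction M with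
    | zero => simp [hU]
    | succ M ih =>
      have e0 : (s (M + 5) : ℝ) + (i (M + 6) - i (M + 5)) + 2 * s (M + 3) + 2 * s M ≤
          s (M + 6) := by
        have h1 := hs M
        have h2 := him (M + 5)
        have h3 : ((i (M + 6) - i (M + 5) : ℕ) : ℝ) = (i (M + 6) : ℝ) - i (M + 5) :=
          Nat.cast_sub h2
        rw [← h3]
        exact_mod_cast h1
      have e1 : (s (M + 6) : ℝ) / 2 ^ (M + 6) ≥ 1 / 2 * ((s (M + 5) : ℝ) / 2 ^ (M + 5)) +
          ((i (M + 6) : ℝ) / 2 ^ (M + 6) - 1 / 2 * ((i (M + 5) : ℝ) / 2 ^ (M + 5))) +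
          1 / 4 * ((s (M + 3) : ℝ) / 2 ^ (M + 3)) + 1 / 32 * ((s M : ℝ) / 2 ^ M) := by
        have e2 : 1 / 2 * ((s (M + 5) : ℝ) / 2 ^ (M + 5)) +
          ((i (M + 6) : ℝ) / 2 ^ (M + 6) - 1 / 2 * ((i (M + 5) : ℝ) / 2 ^ (M + 5))) +
          1 / 4 * ((s (M + 3) : ℝ) / 2 ^ (M + 3)) + 1 / 32 * ((s M : ℝ) / 2 ^ M) =
          ((s (M + 5) : ℝ) + (i (M + 6) - i (M + 5)) + 2 * s (M + 3) + 2 * s M) / 2 ^ (M + 6) := by
          rw [show (2 : ℝ) ^ (M + 6) = 64 * 2 ^ M by ring,
            show (2 : ℝ) ^ (M + 5) = 32 * 2 ^ M by ring,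
            show (2 : ℝ) ^ (M + 3) = 8 * 2 ^ M by ring]
          field_simp
          ring
        rw [e2]
        exact div_le_div_of_nonneg_right e0 (by positivity)
      rw [show M + 1 + 6 = (M + 6) + 1 by ring, show M + 1 + 5 = (M + 5) + 1 by ring,
        show M + 1 + 3 = (M + 3) + 1 by ring, hUs (M + 6), hUs (M + 5), hUs (M + 3), hUs M,
        hVs (M + 6), hVs (M + 5)]
      have x1 : U (M + 6) = U (M + 5) + (s (M + 5) : ℝ) / 2 ^ (M + 5) := hUs (M + 5)
      have x2 : V (M + 6) = V (M + 5) + (i (M + 5) : ℝ) / 2 ^ (M + 5) := hVs (M + 5)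
      linarith
  -- conclusion
  obtain ⟨M, hM⟩ := i_unbounded i hi0 hi
    (30 * (6 * B + U 5 + V 6 + U 3 + 1 / 4 * (U n₀ + 32 / 15 * (1 + T + K))))
  change _ < V M at hM
  have a1 := hlow M
  have a2 := hUV M
  have b0 := hB M
  have b1 := hB (M + 1)
  have b2 := hB (M + 2)
  have b3 := hB (M + 3)
  have b4 := hB (M + 4)
  have b5 := hB (M + 5)
  have c0 := hUs M
  have c1 := hUs (M + 1)
  have c2 := hUs (M + 2)
  have c3 := hUs (M + 3)
  have c4 := hUs (M + 4)
  have c5 := hUs (M + 5)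
  have d0 := hVs M
  have d1 := hVs (M + 1)
  have d2 := hVs (M + 2)
  have d3 := hVs (M + 3)
  have d4 := hVs (M + 4)
  have d5 := hVs (M + 5)
  have f0 := hin M
  have f1 := hin (M + 1)
  have f2 := hin (M + 2)
  have f3 := hin (M + 3)
  have f4 := hin (M + 4)
  have f5 := hin (M + 5)
  have g0 := hsn M
  have g1 := hsn (M + 1)
  have g2 := hsn (M + 2)
  have g3 := hsn (M + 3)
  have g4 := hsn (M + 4)
  have g5 := hsn (M + 5)
  have k0 := hi1 M
  have k1 := hU0 5
  have k2 := hU0 6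
  have k3 := hU0 3
  have k4 := hV0 5
  have k5 := hV0 6
  have k6 := hU0 n₀
  simp only [show M + 1 + 1 = M + 2 by ring, show M + 2 + 1 = M + 3 by ring,
    show M + 3 + 1 = M + 4 by ring, show M + 4 + 1 = M + 5 by ring,
    show M + 5 + 1 = M + 6 by ring] at c0 c1 c2 c3 c4 c5 d0 d1 d2 d3 d4 d5
  linarith

end Pool.Agent.Helper45K9.PP
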