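import Mathlib

/-!
# Permutations of `ℕ` with support in `[0, n)` which avoid the pattern 132

Basic tools: the finite set `P n` of the permutations of `ℕ` fixing all `x ≥ n`, the avoidance
predicate `Av`, and a restriction lemma.
-/

set_option autoImplicit false

namespace Pool.Agent.Helper45K9.PP

open Equiv Finset

/-- `p` fixes all `x ≥ n`. -/
def Fx (n : ℕ) (p : Perm ℕ) : Prop := ∀ x, n ≤ x → p x = x

/-- `p` avoids the pattern 132. -/
def Av (p : Perm ℕ) : Prop := ∀ i j k, i < j → j < k → p i < p k → p k < p j → False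

/-- Extension of a permutation of `Fin n` by the identity. -/
noncomputable def ext (n : ℕ) (p : Perm (Fin n)) : Perm ℕ :=
  p.extendDomain (Fin.equivSubtype (n := n))

theorem ext_lt {n : ℕ} (p : Perm (Fin n)) (x : ℕ) (hx : x < n) : ext n p x = (p ⟨x, hx⟩ : ℕ) := by
  unfold ext
  rw [Perm.extendDomain_apply_subtype (b := x) (h := hx)]
  rfl

theorem ext_ge {n : ℕ} (p : Perm (Fin n)) (x : ℕ) (hx : n ≤ x) : ext n p x = x := by
  unfold ext
  rw [Perm.extendDomain_apply_not_subtype]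
  exact not_lt.mpr hx

theorem ext_injective (n : ℕ) : Function.Injective (ext n) := by
  intro p q h
  ext x
  have := congrArg (fun f : Perm ℕ => f x) h
  simp only [ext_lt _ _ x.2] at this
  exact this

theorem ai (p : Perm ℕ) (x : ℕ) : p (p⁻¹ x) = x := by simp

theorem ia (p : Perm ℕ) (x : ℕ) : p⁻¹ (p x) = x := by simp

theorem Fx.lt {n : ℕ} {p : Perm ℕ} (h : Fx n p) {x : ℕ} (hx : x < n) : p x < n := by
  by_contra hc
  have h1 := h (p x) (not_lt.mp hc)
  have := p.injective h1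
  omega

theorem Fx.mono {m n : ℕ} (hmn : m ≤ n) {p : Perm ℕ} (h : Fx m p) : Fx n p :=
  fun x hx => h x (hmn.trans hx)

theorem Fx.inv {n : ℕ} {p : Perm ℕ} (h : Fx n p) : Fx n p⁻¹ := by
  intro x hx
  rw [Perm.inv_eq_iff_eq]
  exact (h x hx).symm

theorem Fx.mul {n : ℕ} {p q : Perm ℕ} (hp : Fx n p) (hq : Fx n q) : Fx n (p * q) := by
  intro x hx
  rw [Perm.mul_apply, hq x hx, hp x hx]

theorem Fx.pow {n : ℕ} {p : Perm ℕ} (hp : Fx n p) (k : ℕ) : Fx n (p ^ k) := by
  induction k with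
  | zero => intro x _; rfl
  | succ k ih => rw [pow_succ]; exact ih.mul hp

theorem Fx.symm_lt {n : ℕ} {p : Perm ℕ} (h : Fx n p) {x : ℕ} (hx : x < n) : p⁻¹ x < n :=
  h.inv.lt hx

theorem exists_ext {n : ℕ} {p : Perm ℕ} (h : Fx n p) : ∃ q : Perm (Fin n), ext n q = p := by
  refine ⟨⟨fun x => ⟨p x, h.lt x.2⟩, fun x => ⟨p⁻¹ x, h.inv.lt x.2⟩, ?_, ?_⟩, ?_⟩
  · intro x; ext; simp
  · intro x; ext; simp
  · ext x
    by_cases hx : x < n
    · rw [ext_lt _ _ hx]; rfl
    · rw [ext_ge _ _ (not_lt.mp hx), h x (not_lt.mp hx)]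

theorem ext_Fx (n : ℕ) (p : Perm (Fin n)) : Fx n (ext n p) := fun x hx => ext_ge p x hx

/-- The finite set of the permutations of `ℕ` fixing all `x ≥ n`. -/
noncomputable def P (n : ℕ) : Finset (Perm ℕ) :=
  (Finset.univ : Finset (Perm (Fin n))).map ⟨ext n, ext_injective n⟩

theorem mem_P {n : ℕ} {p : Perm ℕ} : p ∈ P n ↔ Fx n p := by
  unfold P
  rw [Finset.mem_map]
  constructor
  · rintro ⟨q, _, rfl⟩; exact ext_Fx n q
  · intro h
    obtain ⟨q, hq⟩ := exists_ext h
    exact ⟨q, Finset.mem_univ _, hq⟩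

/-- Restriction of a permutation to a union of intervals, with different labellings of source and
target. -/
theorem restrict {N : ℕ} {p : Perm ℕ} {φ ψ : ℕ → ℕ}
    (hφ : ∀ x y, x < y → y < N → φ x < φ y)
    (h : ∀ x, x < N → ∃ y, y < N ∧ p (φ x) = ψ y) :
    ∃ τ : Perm ℕ, Fx N τ ∧ ∀ x, x < N → τ x < N ∧ ψ (τ x) = p (φ x) := by
  classical
  have hinj : ∀ x y, x < N → y < N → φ x = φ y → x = y := by
    intro x y hx hy hxy
    rcases lt_trichotomy x y with h1 | h1 | h1
    · have := hφ x y h1 hy; omega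
    · exact h1
    · have := hφ y x h1 hx; omega
  choose f hf1 hf2 using h
  let F : Fin N → Fin N := fun x => ⟨f x x.2, hf1 x x.2⟩
  have hF : Function.Injective F := by
    intro x y hxy
    have h1 : f x x.2 = f y y.2 := congrArg Fin.val hxy
    have h2 := hf2 x x.2
    have h3 := hf2 y y.2
    rw [h1] at h2
    have h4 : p (φ x) = p (φ y) := by rw [h2, h3]
    exact Fin.ext (hinj _ _ x.2 y.2 (p.injective h4))
  have hFb : Function.Bijective F := Finite.injective_iff_bijective.mp hF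
  refine ⟨ext N (Equiv.ofBijective F hFb), ext_Fx _ _, fun x hx => ?_⟩
  rw [ext_lt _ _ hx]
  refine ⟨Fin.is_lt _, ?_⟩
  have : ((Equiv.ofBijective F hFb) ⟨x, hx⟩ : ℕ) = f x hx := rfl
  rw [this]
  exact (hf2 x hx).symm

/-- Extensionality for permutations with support in `[0, n)`. -/
theorem Fx.ext {n : ℕ} {p q : Perm ℕ} (hp : Fx n p) (hq : Fx n q)
    (h : ∀ x, x < n → p x = q x) : p = q := by
  ext x
  by_cases hx : x < n
  · exact h x hx
  · rw [hp x (not_lt.mp hx), hq x (not_lt.mp hx)]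

theorem Av.inv {p : Perm ℕ} (h : Av p) : Av p⁻¹ := by
  intro i j k hij hjk h1 h2
  -- values i<j<k at positions p⁻¹ i < p⁻¹ k < p⁻¹ j
  refine h (p⁻¹ i) (p⁻¹ k) (p⁻¹ j) h1 h2 ?_ ?_
  · simpa using hij
  · simpa using hjk

theorem av_one : Av 1 := by
  intro i j k hij hjk h1 h2
  simp at h1 h2
  omega

/-- To check avoidance for a permutation with support in `[0, n)` it suffices to look at
positions `< n`. -/
theorem av_of_lt {n : ℕ} {p : Perm ℕ} (hp : Fx n p)
    (h : ∀ i j k, i < j → j < k → k < n → p i < p k → p k < p j → False) : Av p := by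
  intro i j k hij hjk h1 h2
  by_cases hk : k < n
  · exact h i j k hij hjk hk h1 h2
  · have hk' := hp k (not_lt.mp hk)
    by_cases hj : j < n
    · have := hp.lt hj; omega
    · have := hp j (not_lt.mp hj); omega

end Pool.Agent.Helper45K9.PP
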