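import Pool.Agent.Helper45K9.PP.Cube

/-!
# Permutations avoiding 132 with `p ^ 3 = 1`: the weighted count
-/

set_option autoImplicit false

namespace Pool.Agent.Helper45K9.PP

open Equiv Finset

open Classical in
/-- The permutations of `[0, n)` avoiding 132 with `p ^ 3 = 1`. -/
noncomputable def tset (n : ℕ) : Finset (Perm ℕ) :=
  (P n).filter (fun p => Av p ∧ ∀ x, p (p (p x)) = x)

open Classical in
theorem mem_tset {n : ℕ} {p : Perm ℕ} :
    p ∈ tset n ↔ Fx n p ∧ Av p ∧ ∀ x, p (p (p x)) = x := by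
  unfold tset
  rw [Finset.mem_filter, mem_P]

open Classical in
/-- The valid cuts. -/
noncomputable def V (n : ℕ) (τ : Perm ℕ) : Finset ℕ :=
  (Finset.range (n + 1)).filter (fun h => Valid n h τ)

open Classical in
theorem mem_V {n h : ℕ} {τ : Perm ℕ} : h ∈ V n τ ↔ h ≤ n ∧ Valid n h τ := by
  unfold V
  rw [Finset.mem_filter, Finset.mem_range]
  constructor
  · rintro ⟨a, b⟩; exact ⟨by omega, b⟩
  · rintro ⟨a, b⟩; exact ⟨by omega, b⟩

theorem zero_mem_V (n : ℕ) (τ : Perm ℕ) : 0 ∈ V n τ := mem_V.mpr ⟨Nat.zero_le _, valid_zero n⟩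

theorem V_card_pos (n : ℕ) (τ : Perm ℕ) : 1 ≤ (V n τ).card :=
  Finset.card_pos.mpr ⟨0, zero_mem_V n τ⟩

/-- In a valid cut `h ≥ 1` the maximum is at a position `< h`. -/
theorem valid_pos {N h r : ℕ} {p : Perm ℕ} (hp : Fx (N + 1) p) (hr : p r = N) (h1 : 1 ≤ h)
    (hN : h ≤ N + 1) (hv : Valid (N + 1) h p) : r < h := by
  by_contra hc
  have hmap : ∀ x ∈ Finset.range h, p x ∈ Finset.Ico (N + 1 - h) N := by
    intro x hx
    rw [Finset.mem_range] at hx
    rw [Finset.mem_Ico]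
    have a := hv.1 x hx
    have b : p x < N + 1 := hp.lt (by omega)
    have c : p x ≠ N := fun e => by
      have := p.injective (e.trans hr.symm); omega
    omega
  have := Finset.card_le_card_of_injOn (fun y => p y) hmap (fun a _ b _ h => p.injective h)
  simp at this
  omega

theorem V_other {N : ℕ} {p : Perm ℕ} (hp : p ∈ tset (N + 1)) (hn : ¬ p⁻¹ N < p N) :
    V (N + 1) p = {0} := by
  rw [mem_tset] at hp
  obtain ⟨hf, _, h3⟩ := hp
  apply Finset.eq_singleton_iff_unique_mem.mpr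
  refine ⟨zero_mem_V _ _, fun h hh => ?_⟩
  rw [mem_V] at hh
  obtain ⟨h1, h2⟩ := hh
  by_contra h0
  have hr : p (p⁻¹ N) = N := ai p N
  have hlt := valid_pos hf hr (by omega) h1 h2
  have hps : p (p N) = p⁻¹ N := by
    rw [eq_comm, Perm.inv_eq_iff_eq]; exact (h3 N).symm
  have a := h2.2.1 N (by omega) (by omega)
  have b := h2.1 (p N) (by omega)
  rw [hps] at b
  have c := h2.2.1 (p⁻¹ N) b (hf.inv.lt (by omega))
  rw [hr] at c
  omega

theorem V_plus {N r s : ℕ} {σ τ p : Perm ℕ} (hp : Plus N r s p)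
    (hc : Code N r (N - r - s - 1) σ τ p) (hv : Valid (N - 2 - 3 * r) (N - r - s - 1) τ) :
    V (N + 1) p ⊆ insert 0 (((V (N - 2 - 3 * r) τ).filter (fun h' => h' ≤ N - r - s - 1)).image
      (fun h' => h' + (r + 1))) := by
  have hh := hp.rs_lt
  have h2r := hp.r_lt_mid
  have hcc : N - 2 - 3 * r - (N - r - s - 1) = s - 1 - 2 * r := by omega
  set K := N - 2 - 3 * r with hK
  set h0 := N - r - s - 1 with hh0
  intro h1 hh1
  rw [mem_V] at hh1
  obtain ⟨hle, hv1⟩ := hh1
  rw [Finset.mem_insert, Finset.mem_image]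
  rcases Nat.eq_zero_or_pos h1 with e | e
  · exact Or.inl e
  right
  have hr1 := valid_pos hp.fx hp.hr e hle hv1
  have hsN := hp.hs
  have a1 := hv1.2.1 N (by omega) (by omega)
  rw [hsN] at a1
  have a2 : h1 ≤ s - r := by
    by_contra hcon
    have b1 := hv1.1 (s - r) (by omega)
    have b2 := hp.mid (x := s - r) le_rfl (by omega)
    omega
  refine ⟨h1 - (r + 1), ?_, by omega⟩
  rw [Finset.mem_filter, mem_V]
  refine ⟨⟨by omega, ?_, ?_, ?_⟩, by omega⟩
  · intro x hx
    have e1 := hc.eτ x (by omega)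
    have f1 : phi r (K - h0) x = x + (r + 1) := by
      unfold phi; rw [if_pos (by omega)]
    rw [f1] at e1
    have g1 := hv1.1 (x + (r + 1)) (by omega)
    rw [← e1] at g1
    unfold phi at g1
    split_ifs at g1 <;> omega
  · intro x hx hx'
    have := hv.2.1 x (by omega) hx'
    omega
  · intro x y hx hxy hy
    exact hv.2.2 x y (by omega) hxy hy

theorem V_plus_card {N r s : ℕ} {σ τ p : Perm ℕ} (hp : Plus N r s p)
    (hc : Code N r (N - r - s - 1) σ τ p) (hv : Valid (N - 2 - 3 * r) (N - r - s - 1) τ) :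
    (V (N + 1) p).card ≤
      ((V (N - 2 - 3 * r) τ).filter (fun h' => h' ≤ N - r - s - 1)).card + 1 := by
  refine (Finset.card_le_card (V_plus hp hc hv)).trans ?_
  refine (Finset.card_insert_le _ _).trans ?_
  exact Nat.add_le_add_right Finset.card_image_le 1

/-- A finite geometric sum over the ranks of the elements of a finite set. -/
theorem sum_rank (A : Finset ℕ) :
    ∑ h ∈ A, ((5 : ℝ) / 4) ^ (A.filter (fun h' => h' ≤ h)).card = 5 * ((5 / 4) ^ A.card - 1) := by
  induction A using Finset.induction_on_max with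
  | empty => simp
  | insert a A hlt ih =>
    have ha : a ∉ A := fun h => (lt_irrefl _ (hlt a h))
    rw [Finset.sum_insert ha, Finset.card_insert_of_notMem ha]
    have e1 : (insert a A).filter (fun h' => h' ≤ a) = insert a A := by
      apply Finset.filter_true_of_mem
      intro x hx
      rw [Finset.mem_insert] at hx
      rcases hx with h | h
      · exact h.le
      · exact (hlt x h).le
    rw [e1, Finset.card_insert_of_notMem ha]
    have e2 : ∑ h ∈ A, ((5 : ℝ) / 4) ^ ((insert a A).filter (fun h' => h' ≤ h)).card =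
        ∑ h ∈ A, ((5 : ℝ) / 4) ^ (A.filter (fun h' => h' ≤ h)).card := by
      apply Finset.sum_congr rfl
      intro h hh
      congr 2
      rw [Finset.filter_insert, if_neg (not_le.mpr (hlt h hh))]
    rw [e2, ih, pow_succ]
    ring

/-- The weight of a permutation. -/
noncomputable def wt (n : ℕ) (p : Perm ℕ) : ℝ := (5 / 4) ^ ((V n p).card - 1)

theorem wt_ge_one (n : ℕ) (p : Perm ℕ) : 1 ≤ wt n p := one_le_pow₀ (by norm_num)

/-- The permutations with the position of the maximum before the last value. -/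
noncomputable def tplus (N : ℕ) : Finset (Perm ℕ) :=
  (tset (N + 1)).filter (fun p => p⁻¹ N < p N)

theorem plus_of_mem {N : ℕ} {p : Perm ℕ} (h : p ∈ tplus N) : Plus N (p⁻¹ N) (p N) p := by
  unfold tplus at h
  rw [Finset.mem_filter, mem_tset] at h
  exact ⟨h.1.1, h.1.2.1, h.1.2.2, ai p N, rfl, h.2⟩

theorem sum_le_of_code {α β : Type*} [DecidableEq β] {A : Finset α} {C : Finset β} {f : α → ℝ}
    {g : β → ℝ} (i : α → β) (hi : ∀ a ∈ A, i a ∈ C) (hinj : Set.InjOn i A)
    (hfg : ∀ a ∈ A, f a ≤ g (i a)) (hg : ∀ c ∈ C, 0 ≤ g c) : ∑ a ∈ A, f a ≤ ∑ c ∈ C, g c := by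
  calc ∑ a ∈ A, f a ≤ ∑ a ∈ A, g (i a) := Finset.sum_le_sum hfg
    _ = ∑ c ∈ A.image i, g c := (Finset.sum_image hinj).symm
    _ ≤ ∑ c ∈ C, g c := by
      apply Finset.sum_le_sum_of_subset_of_nonneg
      · intro c hc
        rw [Finset.mem_image] at hc
        obtain ⟨a, ha, rfl⟩ := hc
        exact hi a ha
      · intro c hc _
        exact hg c hc

theorem sum_tplus_le (N : ℕ) :
    ∑ p ∈ tplus N, wt (N + 1) p ≤
      ∑ r ∈ Finset.range ((N + 1) / 3), (catalan r : ℝ) *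
        (25 / 4 * ∑ τ ∈ tset (N - 2 - 3 * r), wt (N - 2 - 3 * r) τ -
          5 * (tset (N - 2 - 3 * r)).card) := by
  classical
  -- choose the codes
  have hcode : ∀ p, p ∈ tplus N → ∃ c : Perm ℕ × Perm ℕ,
      Code N (p⁻¹ N) (N - p⁻¹ N - p N - 1) c.1 c.2 p ∧ Av c.1 ∧ Av c.2 ∧
      (∀ x, c.2 (c.2 (c.2 x)) = x) ∧
      Valid (N - 2 - 3 * (p⁻¹ N)) (N - p⁻¹ N - p N - 1) c.2 := by
    intro p hp
    obtain ⟨σ, τ, h⟩ := exists_code (plus_of_mem hp)
    exact ⟨(σ, τ), h⟩
  let cd : Perm ℕ → Perm ℕ × Perm ℕ := fun p => if h : p ∈ tplus N then (hcode p h).choose else 1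
  have hcd : ∀ p, p ∈ tplus N → Code N (p⁻¹ N) (N - p⁻¹ N - p N - 1) (cd p).1 (cd p).2 p ∧
      Av (cd p).1 ∧ Av (cd p).2 ∧ (∀ x, (cd p).2 ((cd p).2 ((cd p).2 x)) = x) ∧
      Valid (N - 2 - 3 * (p⁻¹ N)) (N - p⁻¹ N - p N - 1) (cd p).2 := by
    intro p hp
    have : cd p = (hcode p hp).choose := dif_pos hp
    rw [this]
    exact (hcode p hp).choose_spec
  let C : Finset ((_ : ℕ) × (Perm ℕ × ((_ : Perm ℕ) × ℕ))) :=
    (Finset.range ((N + 1) / 3)).sigma (fun r => (cset r) ×ˢ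
      ((tset (N - 2 - 3 * r)).sigma (fun τ => V (N - 2 - 3 * r) τ)))
  let g : ((_ : ℕ) × (Perm ℕ × ((_ : Perm ℕ) × ℕ))) → ℝ := fun c =>
    (5 / 4) ^ ((V (N - 2 - 3 * c.1) c.2.2.1).filter (fun h' => h' ≤ c.2.2.2)).card
  let i : Perm ℕ → ((_ : ℕ) × (Perm ℕ × ((_ : Perm ℕ) × ℕ))) := fun p =>
    ⟨p⁻¹ N, ((cd p).1, ⟨(cd p).2, N - p⁻¹ N - p N - 1⟩)⟩
  have hmain : ∑ p ∈ tplus N, wt (N + 1) p ≤ ∑ c ∈ C, g c := by
    apply sum_le_of_code i
    · intro p hp
      have hpl := plus_of_mem hp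
      obtain ⟨c1, c2, c3, c4, c5⟩ := hcd p hp
      have h1 := hpl.rs_lt
      have h2 := hpl.r_lt_mid
      simp only [C, i, Finset.mem_sigma, Finset.mem_product, Finset.mem_range, mem_cset,
        mem_tset, mem_V]
      exact ⟨by omega, ⟨c1.fσ, c2⟩, ⟨c1.fτ, c3, c4⟩, by omega, c5⟩
    · intro p hp q hq hpq
      have hpl := plus_of_mem hp
      have hql := plus_of_mem hq
      obtain ⟨c1, -⟩ := hcd p hp
      obtain ⟨d1, -⟩ := hcd q hq
      simp only [i, Sigma.mk.injEq, heq_eq_eq, Prod.mk.injEq] at hpq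
      obtain ⟨e1, e2, e3, e4⟩ := hpq
      rw [← e1] at d1 hql
      rw [← e2, ← e3] at d1
      rw [← e1] at e4
      rw [← e4] at d1
      exact code_inj hpl hql rfl e4 c1 d1
    · intro p hp
      have hpl := plus_of_mem hp
      obtain ⟨c1, c2, c3, c4, c5⟩ := hcd p hp
      have := V_plus_card hpl c1 c5
      apply pow_le_pow_right₀ (by norm_num)
      simp only [i]
      omega
    · intro c _
      positivity
  refine hmain.trans (le_of_eq ?_)
  rw [Finset.sum_sigma]
  apply Finset.sum_congr rfl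
  intro r _
  rw [Finset.sum_product]
  simp only [g]
  rw [Finset.sum_const, card_cset, nsmul_eq_mul]
  congr 1
  rw [Finset.sum_sigma]
  have : ∀ τ ∈ tset (N - 2 - 3 * r), ∑ h ∈ V (N - 2 - 3 * r) τ,
      ((5 : ℝ) / 4) ^ ((V (N - 2 - 3 * r) τ).filter (fun h' => h' ≤ h)).card =
      25 / 4 * wt (N - 2 - 3 * r) τ - 5 := by
    intro τ _
    rw [sum_rank]
    unfold wt
    obtain ⟨k, hk⟩ : ∃ k, (V (N - 2 - 3 * r) τ).card = k + 1 :=
      ⟨(V (N - 2 - 3 * r) τ).card - 1, by have := V_card_pos (N - 2 - 3 * r) τ; omega⟩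
    rw [hk, Nat.add_sub_cancel, pow_succ]
    ring
  rw [Finset.sum_congr rfl this, Finset.sum_sub_distrib, ← Finset.mul_sum, Finset.sum_const,
    nsmul_eq_mul]
  ring

/-- Sum of the weights. -/
noncomputable def W (n : ℕ) : ℝ := ∑ p ∈ tset n, wt n p

theorem W_succ (N : ℕ) : W (N + 1) = ∑ p ∈ tplus N, wt (N + 1) p +
    ((tset (N + 1)).card - (tplus N).card) := by
  unfold W
  rw [← Finset.sum_filter_add_sum_filter_not (tset (N + 1)) (fun p => p⁻¹ N < p N)]
  congr 1
  have h1 : ∑ p ∈ (tset (N + 1)).filter (fun p => ¬ p⁻¹ N < p N), wt (N + 1) p =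
      ∑ p ∈ (tset (N + 1)).filter (fun p => ¬ p⁻¹ N < p N), (1 : ℝ) := by
    apply Finset.sum_congr rfl
    intro p hp
    rw [Finset.mem_filter] at hp
    unfold wt
    rw [V_other hp.1 hp.2]
    simp
  rw [h1, Finset.sum_const, nsmul_eq_mul, mul_one]
  have h2 := Finset.card_filter_add_card_filter_not (s := tset (N + 1)) (fun p => p⁻¹ N < p N)
  have h3 : (tplus N).card = ((tset (N + 1)).filter (fun p => p⁻¹ N < p N)).card := rfl
  rw [← h2, h3]
  push_cast
  ring

theorem tset_inv {n : ℕ} {p : Perm ℕ} (h : p ∈ tset n) : p⁻¹ ∈ tset n := by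
  rw [mem_tset] at h ⊢
  refine ⟨h.1.inv, h.2.1.inv, fun x => ?_⟩
  rw [Perm.inv_eq_iff_eq, Perm.inv_eq_iff_eq, Perm.inv_eq_iff_eq]
  exact (h.2.2 x).symm

theorem card_tset_succ (N : ℕ) :
    (tset (N + 1)).card ≤ (tset N).card + 2 * (tplus N).card := by
  classical
  have h1 : (tset (N + 1)) ⊆ (tset N ∪ tplus N) ∪ (tplus N).image (fun p => p⁻¹) := by
    intro p hp
    rw [Finset.mem_union, Finset.mem_union, Finset.mem_image]
    have hp' := hp
    rw [mem_tset] at hp'
    obtain ⟨hf, ha, h3⟩ := hp'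
    rcases lt_trichotomy (p⁻¹ N) (p N) with h | h | h
    · left; right
      unfold tplus
      rw [Finset.mem_filter]
      exact ⟨hp, h⟩
    · left; left
      have e : p (p N) = p⁻¹ N := by
        rw [eq_comm, Perm.inv_eq_iff_eq]; exact (h3 N).symm
      have e1 : p (p N) = p N := by rw [e, h]
      have e2 := p.injective e1
      rw [mem_tset]
      refine ⟨fun x hx => ?_, ha, h3⟩
      rcases Nat.eq_or_lt_of_le hx with g | g
      · rw [← g]; exact e2
      · exact hf x g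
    · right
      refine ⟨p⁻¹, ?_, inv_inv p⟩
      unfold tplus
      rw [Finset.mem_filter]
      refine ⟨tset_inv hp, ?_⟩
      rw [inv_inv]
      exact h
  have h2 := Finset.card_le_card h1
  have h3 := Finset.card_union_le (tset N ∪ tplus N) ((tplus N).image (fun p => p⁻¹))
  have h4 := Finset.card_union_le (tset N) (tplus N)
  have h5 : ((tplus N).image (fun p => p⁻¹)).card ≤ (tplus N).card := Finset.card_image_le
  omega

theorem card_tset_zero : (tset 0).card = 1 := by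
  rw [Finset.card_eq_one]
  refine ⟨1, ?_⟩
  ext p
  rw [mem_tset, Finset.mem_singleton]
  constructor
  · rintro ⟨h, _⟩
    ext x
    exact h x (Nat.zero_le _)
  · rintro rfl
    exact ⟨fun x _ => rfl, av_one, fun x => rfl⟩

theorem card_le_W (n : ℕ) : ((tset n).card : ℝ) ≤ W n := by
  unfold W
  have : ((tset n).card : ℝ) = ∑ p ∈ tset n, (1 : ℝ) := by simp
  rw [this]
  exact Finset.sum_le_sum (fun p _ => wt_ge_one n p)

theorem W_zero : W 0 = 1 := by
  unfold W
  have h := card_tset_zero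
  rw [Finset.card_eq_one] at h
  obtain ⟨a, ha⟩ := h
  rw [ha, Finset.sum_singleton]
  unfold wt
  have : (V 0 a).card = 1 := by
    rw [Finset.card_eq_one]
    refine ⟨0, ?_⟩
    apply Finset.eq_singleton_iff_unique_mem.mpr
    refine ⟨zero_mem_V _ _, fun h hh => ?_⟩
    rw [mem_V] at hh
    omega
  rw [this]
  simp

end Pool.Agent.Helper45K9.PP
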