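import Pool.Agent.Helper45K9.PP.Order

/-!
# Powerful avoiders of 132: reduction to generators
-/

set_option autoImplicit false

namespace Pool.Agent.Helper45K9.PP

open Equiv Finset

open Classical in
/-- The permutations of `[0, n)` powerfully avoiding 132. -/
noncomputable def qset (n : ℕ) : Finset (Perm ℕ) := (P n).filter (fun p => ∀ k : ℕ, Av (p ^ k))

open Classical in
theorem mem_qset {n : ℕ} {p : Perm ℕ} : p ∈ qset n ↔ Fx n p ∧ ∀ k : ℕ, Av (p ^ k) := by
  unfold qset
  rw [Finset.mem_filter, mem_P]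

theorem eq_one_of_av {q : Perm ℕ} (h : Av q) (h0 : q 0 = 0) : q = 1 := by
  have hm : StrictMono q := by
    intro i j hij
    have hj : q j ≠ 0 := fun e => by
      have := q.injective (e.trans h0.symm); omega
    rcases Nat.eq_zero_or_pos i with e | e
    · subst e; omega
    · by_contra hc
      have hne : q i ≠ q j := fun e => by have := q.injective e; omega
      exact h 0 i j e hij (by omega) (by omega)
  have hm' : StrictMono (q⁻¹ : Perm ℕ) := by
    intro a b hab
    by_contra hc
    have hne : q⁻¹ a ≠ q⁻¹ b := fun e => by have := q⁻¹.injective e; omega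
    have := hm (show q⁻¹ b < q⁻¹ a by omega)
    rw [ai, ai] at this
    omega
  ext x
  have h1 : x ≤ q x := hm.le_apply
  have h2 : q x ≤ q⁻¹ (q x) := hm'.le_apply
  rw [ia] at h2
  simp only [Perm.one_apply]
  omega

theorem ext_one (n : ℕ) : ext n 1 = 1 := by
  unfold ext
  simp

theorem ext_pow (n : ℕ) (q : Perm (Fin n)) (k : ℕ) : ext n q ^ k = ext n (q ^ k) := by
  unfold ext
  rw [Perm.extendDomain_pow]

theorem exists_pow_eq_one {n : ℕ} {p : Perm ℕ} (h : Fx n p) : ∃ L, 0 < L ∧ p ^ L = 1 := by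
  obtain ⟨q, rfl⟩ := exists_ext h
  refine ⟨orderOf q, orderOf_pos q, ?_⟩
  rw [ext_pow, pow_orderOf_eq_one, ext_one]

theorem exists_gen {N : ℕ} {p : Perm ℕ} (hp : p ∈ qset (N + 1)) (hN : p N ≠ N)
    (h2 : p ^ 2 ≠ 1) (h3 : p ^ 3 ≠ 1) :
    ∃ l g j, Gen N l g ∧ p = g ^ j ∧ j < N + 1 := by
  classical
  rw [mem_qset] at hp
  obtain ⟨hf, hav⟩ := hp
  obtain ⟨L, hL, hpL⟩ := exists_pow_eq_one hf
  have hp1 : p ≠ 1 := fun e => hN (by rw [e]; rfl)
  have hz : ∀ k : ℕ, (p ^ k) 0 = 0 → p ^ k = 1 := fun k hk => eq_one_of_av (hav k) hk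
  have hex : ∃ v, 0 < v ∧ ∃ a : ℕ, (p ^ a) 0 = v := by
    refine ⟨p 0, ?_, 1, by rw [pow_one]⟩
    by_contra hc
    have := hz 1 (by rw [pow_one]; omega)
    rw [pow_one] at this
    exact hp1 this
  obtain ⟨hv0, a, ha⟩ := Nat.find_spec hex
  set v := Nat.find hex with hv
  have hmin : ∀ w, 0 < w → (∃ b : ℕ, (p ^ b) 0 = w) → v ≤ w := fun w h1 h2 =>
    Nat.find_min' hex ⟨h1, h2⟩
  set g := p ^ a with hg
  have hgL : g ^ L = 1 := by rw [hg, ← pow_mul, mul_comm, pow_mul, hpL, one_pow]
  have gav : ∀ k : ℕ, Av (g ^ k) := fun k => by rw [hg, ← pow_mul]; exact hav _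
  have gf : Fx (N + 1) g := hf.pow a
  have comm : ∀ (b : ℕ) (x : ℕ), g ((p ^ b) x) = (p ^ b) (g x) := by
    intro b x
    rw [← Perm.mul_apply, ← Perm.mul_apply, hg, ← pow_add, ← pow_add, add_comm]
  have ginv : g⁻¹ = p ^ (a * (L - 1)) := by
    rw [inv_eq_iff_mul_eq_one, pow_mul, ← hg, ← pow_succ', Nat.sub_add_cancel hL, hgL]
  have gav1 : Av g := by simpa using gav 1
  -- claim A
  have claimA : ∀ b : ℕ, (p ^ b) 0 ≠ 0 → g⁻¹ ((p ^ b) 0) < (p ^ b) 0 := by
    intro b hb
    by_contra hc
    set x := (p ^ b) 0 with hx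
    have hne : g⁻¹ x ≠ x := by
      intro e
      have e1 : g x = x := by
        conv_rhs => rw [← ai g x, e]
      rw [hx, comm] at e1
      have e2 := (p ^ b).injective e1
      omega
    have hmono : ∀ k : ℕ, v ≤ (g ^ k)⁻¹ x ∧ (g ^ k)⁻¹ x < (g ^ (k + 1))⁻¹ x := by
      intro k
      induction k with
      | zero =>
        constructor
        · simp only [pow_zero, inv_one, Perm.one_apply]
          exact hmin x (by omega) ⟨b, rfl⟩
        · simp only [pow_zero, inv_one, Perm.one_apply, zero_add, pow_one]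
          omega
      | succ k ih =>
        have h1 := inv_mono_of_av gav1 (show g 0 ≤ (g ^ k)⁻¹ x by rw [ha]; exact ih.1) ih.2
        have e1 : ∀ j : ℕ, g⁻¹ ((g ^ j)⁻¹ x) = (g ^ (j + 1))⁻¹ x := by
          intro j
          rw [← Perm.mul_apply, ← mul_inv_rev, ← pow_succ]
        rw [e1, e1] at h1
        refine ⟨?_, h1⟩
        omega
    have hlt : ∀ k : ℕ, x < (g ^ (k + 1))⁻¹ x := by
      intro k
      induction k with
      | zero =>
        have := (hmono 0).2
        simpa using this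
      | succ k ih => exact ih.trans (hmono (k + 1)).2
    have := hlt (L - 1)
    rw [Nat.sub_add_cancel hL, hgL] at this
    simp at this
  -- claim B
  have claimB : ∀ x, (∃ b : ℕ, (p ^ b) 0 = x) → ∃ j : ℕ, (g ^ j) 0 = x := by
    intro x
    induction x using Nat.strong_induction_on with
    | _ x ih =>
      rintro ⟨b, hb⟩
      by_cases hx0 : x = 0
      · exact ⟨0, by rw [hx0]; rfl⟩
      · have h1 := claimA b (by rw [hb]; exact hx0)
        rw [hb] at h1
        obtain ⟨j, hj⟩ := ih (g⁻¹ x) h1 ⟨a * (L - 1) + b, by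
          rw [pow_add, Perm.mul_apply, hb, ← ginv]⟩
        refine ⟨j + 1, ?_⟩
        rw [pow_succ', Perm.mul_apply, hj, ai]
  obtain ⟨j, hj⟩ := claimB (p 0) ⟨1, by rw [pow_one]⟩
  have hpg : p = g ^ j := by
    have hgjL : (g ^ j) ^ L = 1 := by rw [← pow_mul, mul_comm, pow_mul, hgL, one_pow]
    have e0 : (g ^ j)⁻¹ = p ^ (a * j * (L - 1)) := by
      rw [inv_eq_iff_mul_eq_one, pow_mul, pow_mul, ← hg, ← pow_succ', Nat.sub_add_cancel hL, hgjL]
    have e1 : (p ^ (a * j * (L - 1) + 1)) 0 = 0 := by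
      rw [pow_succ, Perm.mul_apply, ← e0, ← hj, Perm.inv_eq_iff_eq]
    have e2 := hz _ e1
    rw [pow_succ, ← e0, inv_mul_eq_one] at e2
    exact e2.symm
  have hfo : 0 < orderOf g := orderOf_pos_iff.mpr (isOfFinOrder_iff_pow_eq_one.mpr ⟨L, hL, hgL⟩)
  have hinc : ∀ i, i + 1 < orderOf g → (g ^ i) 0 < (g ^ (i + 1)) 0 := by
    intro i hi
    have hne : (g ^ (i + 1)) 0 ≠ 0 := by
      intro e
      have e1 : g ^ (i + 1) = 1 := eq_one_of_av (gav _) e
      have := orderOf_le_of_pow_eq_one (by omega) e1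
      omega
    have h1 := claimA (a * (i + 1)) (by rw [pow_mul, ← hg]; exact hne)
    rw [pow_mul, ← hg, Gen.inv_o] at h1
    exact h1
  have hl4 : 4 ≤ orderOf g := by
    by_contra hc
    have h1 : p ^ orderOf g = 1 := by
      rw [hpg, ← pow_mul, mul_comm, pow_mul, pow_orderOf_eq_one, one_pow]
    have hcases : orderOf g = 1 ∨ orderOf g = 2 ∨ orderOf g = 3 := by omega
    rcases hcases with e | e | e
    · rw [e, pow_one] at h1; exact hp1 h1
    · rw [e] at h1; exact h2 h1
    · rw [e] at h1; exact h3 h1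
  have hgN : g N ≠ N := by
    intro e
    apply hN
    rw [hpg]
    clear hpg hj
    induction j with
    | zero => rfl
    | succ j ih => rw [pow_succ, Perm.mul_apply, e, ih]
  have hG : Gen N (orderOf g) g := ⟨gf, gav, hgN, hl4, pow_orderOf_eq_one g, hinc⟩
  refine ⟨orderOf g, g, j % orderOf g, hG, ?_, ?_⟩
  · rw [pow_mod_orderOf]; exact hpg
  · -- orderOf g ≤ N + 1
    have h1 : orderOf g ≤ N + 1 := by
      have hmap : ∀ i ∈ Finset.range (orderOf g), (g ^ i) 0 ∈ Finset.range (N + 1) := by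
        intro i _
        rw [Finset.mem_range]
        exact hG.o_lt i
      have hinj : Set.InjOn (fun i => (g ^ i) 0) (Finset.range (orderOf g) : Set ℕ) := by
        intro i hi j hj hij
        simp only [Finset.coe_range, Set.mem_Iio] at hi hj
        simp only at hij
        rcases lt_trichotomy i j with h | h | h
        · have := hG.mono h hj; omega
        · exact h
        · have := hG.mono h hi; omega
      have := Finset.card_le_card_of_injOn _ hmap hinj
      simpa using this
    have := Nat.mod_lt j hfo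
    omega

open Classical in
/-- The generators. -/
noncomputable def gens (N : ℕ) : Finset (Perm ℕ) :=
  (P (N + 1)).filter (fun g => ∃ l, Gen N l g)

theorem card_gens_le (N : ℕ) :
    (gens N).card ≤ ∑ m ∈ Finset.range ((N + 1) / 4 + 1), catalan m := by
  classical
  have hcode : ∀ g, g ∈ gens N → ∃ c : ℕ × Perm ℕ, (∃ l, GenM N l c.1 g) ∧ Fx c.1 c.2 ∧ Av c.2 ∧
      ∀ x, x < c.1 → c.2 x + c.1 = g x := by
    intro g hg
    unfold gens at hg
    rw [Finset.mem_filter] at hg
    obtain ⟨_, l, hl⟩ := hg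
    obtain ⟨m, hm⟩ := hl.toGenM
    obtain ⟨σ, hσ, hσ2⟩ := restrict (N := m) (p := g) (φ := fun x => x)
      (ψ := fun y => y + m) (fun x y hxy _ => hxy) (fun x hx => by
        have := hm.low hx
        exact ⟨g x - m, by omega, by omega⟩)
    refine ⟨(m, σ), ⟨l, hm⟩, hσ, ?_, fun x hx => (hσ2 x hx).2⟩
    refine av_of_lt hσ ?_
    intro i j k hij hjk hk h1 h2
    have e1 := (hσ2 i (by omega)).2
    have e2 := (hσ2 j (by omega)).2
    have e3 := (hσ2 k (by omega)).2
    have gav1 : Av g := by simpa using hl.av 1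
    have h1' : σ i < σ k := h1
    have h2' : σ k < σ j := h2
    exact gav1 i j k hij hjk (by omega) (by omega)
  let cd : Perm ℕ → ℕ × Perm ℕ := fun g => if h : g ∈ gens N then (hcode g h).choose else (0, 1)
  have hcd : ∀ g, g ∈ gens N → (∃ l, GenM N l (cd g).1 g) ∧ Fx (cd g).1 (cd g).2 ∧
      Av (cd g).2 ∧ ∀ x, x < (cd g).1 → (cd g).2 x + (cd g).1 = g x := by
    intro g hg
    have : cd g = (hcode g hg).choose := dif_pos hg
    rw [this]
    exact (hcode g hg).choose_spec
  have hsum : ∑ m ∈ Finset.range ((N + 1) / 4 + 1), catalan m =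
      ((Finset.range ((N + 1) / 4 + 1)).sigma cset).card := by
    rw [Finset.card_sigma]
    apply Finset.sum_congr rfl
    intro m _
    rw [card_cset]
  rw [hsum]
  apply Finset.card_le_card_of_injOn (fun g => (⟨(cd g).1, (cd g).2⟩ : (_ : ℕ) × Perm ℕ))
  · intro g hg
    rw [Finset.mem_coe] at hg
    obtain ⟨⟨l, h1⟩, h2, h3, h4⟩ := hcd g hg
    rw [Finset.mem_coe, Finset.mem_sigma, Finset.mem_range, mem_cset]
    have := h1.l_mul_le
    exact ⟨by simp only; omega, h2, h3⟩
  · intro g hg g' hg' he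
    rw [Finset.mem_coe] at hg hg'
    obtain ⟨⟨l, h1⟩, h2, h3, h4⟩ := hcd g hg
    obtain ⟨⟨l', h1'⟩, h2', h3', h4'⟩ := hcd g' hg'
    simp only [Sigma.mk.injEq, heq_eq_eq] at he
    obtain ⟨e1, e2⟩ := he
    rw [← e1] at h1' h4'
    rw [← e2] at h4'
    exact h1.inj h1' (fun x hx => by rw [← h4 x hx, ← h4' x hx])

open Classical in
/-- The powerful avoiders of order at least four. -/
noncomputable def oset (n : ℕ) : Finset (Perm ℕ) :=
  (qset n).filter (fun p => p ^ 2 ≠ 1 ∧ p ^ 3 ≠ 1)

theorem card_oset_succ (N : ℕ) :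
    (oset (N + 1)).card ≤ (oset N).card +
      (N + 1) * ∑ m ∈ Finset.range ((N + 1) / 4 + 1), catalan m := by
  classical
  have h1 : oset (N + 1) ⊆ oset N ∪
      ((gens N) ×ˢ (Finset.range (N + 1))).image (fun c => c.1 ^ c.2) := by
    intro p hp
    unfold oset at hp
    rw [Finset.mem_filter] at hp
    obtain ⟨hq, h2, h3⟩ := hp
    rw [Finset.mem_union]
    by_cases hN : p N = N
    · left
      unfold oset
      rw [Finset.mem_filter, mem_qset]
      rw [mem_qset] at hq
      refine ⟨⟨fun x hx => ?_, hq.2⟩, h2, h3⟩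
      rcases Nat.eq_or_lt_of_le hx with g | g
      · rw [← g]; exact hN
      · exact hq.1 x g
    · right
      obtain ⟨l, g, j, hG, hpg, hj⟩ := exists_gen hq hN h2 h3
      rw [Finset.mem_image]
      refine ⟨(g, j), ?_, hpg.symm⟩
      rw [Finset.mem_product, Finset.mem_range]
      refine ⟨?_, hj⟩
      unfold gens
      rw [Finset.mem_filter, mem_P]
      exact ⟨hG.fx, l, hG⟩
  have h2 := Finset.card_le_card h1
  have h3 := Finset.card_union_le (oset N)
    (((gens N) ×ˢ (Finset.range (N + 1))).image (fun c => c.1 ^ c.2))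
  have h4 : (((gens N) ×ˢ (Finset.range (N + 1))).image (fun c => c.1 ^ c.2)).card ≤
      (gens N).card * (N + 1) := by
    refine Finset.card_image_le.trans ?_
    rw [Finset.card_product, Finset.card_range]
  have h5 := Nat.mul_le_mul_right (N + 1) (card_gens_le N)
  rw [mul_comm (N + 1)]
  omega

theorem card_qset_le (n : ℕ) :
    (qset n).card ≤ (iset n).card + (tset n).card + (oset n).card := by
  classical
  have h1 : qset n ⊆ (iset n ∪ tset n) ∪ oset n := by
    intro p hp
    have hq := hp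
    rw [mem_qset] at hp
    rw [Finset.mem_union, Finset.mem_union]
    have a1 : Av p := by simpa using hp.2 1
    by_cases h2 : p ^ 2 = 1
    · left; left
      rw [mem_iset]
      exact ⟨hp.1, a1, by rw [← pow_two]; exact h2⟩
    by_cases h3 : p ^ 3 = 1
    · left; right
      rw [mem_tset]
      refine ⟨hp.1, a1, fun x => ?_⟩
      have := congrArg (fun f : Perm ℕ => f x) h3
      simpa [pow_succ] using this
    right
    unfold oset
    rw [Finset.mem_filter]
    exact ⟨hq, h2, h3⟩
  have h2 := Finset.card_le_card h1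
  have h3 := Finset.card_union_le (iset n ∪ tset n) (oset n)
  have h4 := Finset.card_union_le (iset n) (tset n)
  omega

theorem oset_zero : (oset 0).card = 0 := by
  classical
  rw [Finset.card_eq_zero, Finset.eq_empty_iff_forall_notMem]
  intro p hp
  unfold oset at hp
  rw [Finset.mem_filter, mem_qset] at hp
  apply hp.2.1
  have : p = 1 := by
    ext x
    exact hp.1.1 x (Nat.zero_le _)
  rw [this, one_pow]

end Pool.Agent.Helper45K9.PP
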