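import Pool.Agent.Helper45K9.PP.Invol

/-!
# Strong avoiders of 132: a lower bound by a recursion
-/

set_option autoImplicit false

namespace Pool.Agent.Helper45K9.PP

open Equiv Finset

open Classical in
/-- The permutations of `[0, n)` strongly avoiding 132. -/
noncomputable def sset (n : ℕ) : Finset (Perm ℕ) := (P n).filter (fun p => Av p ∧ Av (p * p))

open Classical in
theorem mem_sset {n : ℕ} {p : Perm ℕ} : p ∈ sset n ↔ Fx n p ∧ Av p ∧ Av (p * p) := by
  unfold sset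
  rw [Finset.mem_filter, mem_P]

theorem Fx.cases {m : ℕ} {ρ : Perm ℕ} (h : Fx m ρ) (x : ℕ) : ρ x < m ∨ (m ≤ x ∧ ρ x = x) := by
  by_cases hx : x < m
  · exact Or.inl (h.lt hx)
  · exact Or.inr ⟨by omega, h x (by omega)⟩

/-- First wrap. -/
noncomputable def xF (m : ℕ) (ρ : Perm ℕ) (x : ℕ) : ℕ :=
  if x = 0 then m + 2 else if x ≤ m then ρ (x - 1) + 1 else if x = m + 1 then 0 else m + 1

/-- Square of the first wrap. -/
noncomputable def xF2 (m : ℕ) (ρ : Perm ℕ) (x : ℕ) : ℕ :=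
  if x = 0 then m + 1 else if x ≤ m then ρ (ρ (x - 1)) + 1 else if x = m + 1 then m + 2 else 0

theorem xF_facts {m : ℕ} {ρ : Perm ℕ} (hρ : Fx m ρ) :
    (∀ x, x < m + 3 → xF m ρ x < m + 3) ∧
    (∀ x y, x < y → y < m + 3 → xF m ρ x ≠ xF m ρ y) := by
  constructor
  · intro x hx
    have := hρ.cases (x - 1)
    unfold xF
    split_ifs <;> omega
  · intro x y hxy hy h
    have h1 := hρ.cases (x - 1)
    have h2 := hρ.cases (y - 1)
    unfold xF at h
    split_ifs at h <;> first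
      | omega
      | (have := ρ.injective (show ρ (x - 1) = ρ (y - 1) by omega); omega)

/-- The wrapped permutation. -/
noncomputable def X (m : ℕ) (ρ : Perm ℕ) : Perm ℕ := mk (m + 3) (xF m ρ)

theorem X_lt {m : ℕ} {ρ : Perm ℕ} (hρ : Fx m ρ) {x : ℕ} (hx : x < m + 3) :
    X m ρ x = xF m ρ x := mk_lt (xF_facts hρ).1 (xF_facts hρ).2 hx

theorem X_sq {m : ℕ} {ρ : Perm ℕ} (hρ : Fx m ρ) {x : ℕ} (hx : x < m + 3) :
    (X m ρ * X m ρ) x = xF2 m ρ x := by
  rw [Perm.mul_apply, X_lt hρ hx, X_lt hρ ((xF_facts hρ).1 x hx)]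
  have h1 := hρ.cases (x - 1)
  unfold xF xF2
  by_cases h0 : x = 0
  · rw [if_pos h0, if_pos h0, if_neg (by omega), if_neg (by omega), if_neg (by omega)]
  · rw [if_neg h0, if_neg h0]
    by_cases hm : x ≤ m
    · rw [if_pos hm, if_pos hm, if_neg (by omega), if_pos (by omega)]
      congr 3
    · rw [if_neg hm, if_neg hm]
      by_cases hm1 : x = m + 1
      · rw [if_pos hm1, if_pos hm1, if_pos rfl]
      · rw [if_neg hm1, if_neg hm1, if_neg (by omega), if_neg (by omega), if_pos rfl]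

theorem X_av {m : ℕ} {ρ : Perm ℕ} (hρ : Fx m ρ) (a : Av ρ) : Av (X m ρ) := by
  refine av_of_lt (mk_Fx _ _) ?_
  intro i j k hij hjk hk h1 h2
  rw [X_lt hρ (by omega), X_lt hρ (by omega)] at h1
  rw [X_lt hρ (by omega), X_lt hρ (by omega)] at h2
  have b1 := hρ.cases (i - 1)
  have b2 := hρ.cases (j - 1)
  have b3 := hρ.cases (k - 1)
  unfold xF at h1 h2
  split_ifs at h1 h2 <;> first
    | omega
    | exact a (i - 1) (j - 1) (k - 1) (by omega) (by omega) (by omega) (by omega)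

theorem X_av2 {m : ℕ} {ρ : Perm ℕ} (hρ : Fx m ρ) (a : Av (ρ * ρ)) :
    Av (X m ρ * X m ρ) := by
  refine av_of_lt ((mk_Fx _ _).mul (mk_Fx _ _)) ?_
  intro i j k hij hjk hk h1 h2
  rw [X_sq hρ (by omega), X_sq hρ (by omega)] at h1
  rw [X_sq hρ (by omega), X_sq hρ (by omega)] at h2
  have b1 := (hρ.mul hρ).cases (i - 1)
  have b2 := (hρ.mul hρ).cases (j - 1)
  have b3 := (hρ.mul hρ).cases (k - 1)
  rw [Perm.mul_apply] at b1 b2 b3
  unfold xF2 at h1 h2
  split_ifs at h1 h2 <;> first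
    | omega
    | exact a (i - 1) (j - 1) (k - 1) (by omega) (by omega)
        (by simp only [Perm.mul_apply]; omega) (by simp only [Perm.mul_apply]; omega)

/-- Second wrap. -/
noncomputable def yF (m : ℕ) (ρ : Perm ℕ) (x : ℕ) : ℕ :=
  if x < 2 then x + (m + 4) else if x < m + 2 then ρ (x - 2) + 2 else
  if x < m + 4 then x - (m + 2) else x - 2

/-- Square of the second wrap. -/
noncomputable def yF2 (m : ℕ) (ρ : Perm ℕ) (x : ℕ) : ℕ :=
  if x < 2 then x + (m + 2) else if x < m + 2 then ρ (ρ (x - 2)) + 2 else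
  if x < m + 4 then x + 2 else x - (m + 4)

theorem yF_facts {m : ℕ} {ρ : Perm ℕ} (hρ : Fx m ρ) :
    (∀ x, x < m + 6 → yF m ρ x < m + 6) ∧
    (∀ x y, x < y → y < m + 6 → yF m ρ x ≠ yF m ρ y) := by
  constructor
  · intro x hx
    have := hρ.cases (x - 2)
    unfold yF
    split_ifs <;> omega
  · intro x y hxy hy h
    have h1 := hρ.cases (x - 2)
    have h2 := hρ.cases (y - 2)
    unfold yF at h
    split_ifs at h <;> first
      | omega
      | (have := ρ.injective (show ρ (x - 2) = ρ (y - 2) by omega); omega)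

/-- The wrapped permutation. -/
noncomputable def Y (m : ℕ) (ρ : Perm ℕ) : Perm ℕ := mk (m + 6) (yF m ρ)

theorem Y_lt {m : ℕ} {ρ : Perm ℕ} (hρ : Fx m ρ) {x : ℕ} (hx : x < m + 6) :
    Y m ρ x = yF m ρ x := mk_lt (yF_facts hρ).1 (yF_facts hρ).2 hx

theorem Y_sq {m : ℕ} {ρ : Perm ℕ} (hρ : Fx m ρ) {x : ℕ} (hx : x < m + 6) :
    (Y m ρ * Y m ρ) x = yF2 m ρ x := by
  rw [Perm.mul_apply, Y_lt hρ hx, Y_lt hρ ((yF_facts hρ).1 x hx)]
  have h1 := hρ.cases (x - 2)
  unfold yF yF2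
  by_cases h0 : x < 2
  · rw [if_pos h0, if_pos h0, if_neg (by omega), if_neg (by omega), if_neg (by omega)]
    omega
  · rw [if_neg h0, if_neg h0]
    by_cases hm : x < m + 2
    · rw [if_pos hm, if_pos hm, if_neg (by omega), if_pos (by omega)]
      congr 3
    · rw [if_neg hm, if_neg hm]
      by_cases hm1 : x < m + 4
      · rw [if_pos hm1, if_pos hm1, if_pos (by omega)]
        omega
      · rw [if_neg hm1, if_neg hm1, if_neg (by omega), if_neg (by omega), if_pos (by omega)]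
        omega

theorem Y_av {m : ℕ} {ρ : Perm ℕ} (hρ : Fx m ρ) (a : Av ρ) : Av (Y m ρ) := by
  refine av_of_lt (mk_Fx _ _) ?_
  intro i j k hij hjk hk h1 h2
  rw [Y_lt hρ (by omega), Y_lt hρ (by omega)] at h1
  rw [Y_lt hρ (by omega), Y_lt hρ (by omega)] at h2
  have b1 := hρ.cases (i - 2)
  have b2 := hρ.cases (j - 2)
  have b3 := hρ.cases (k - 2)
  unfold yF at h1 h2
  split_ifs at h1 h2 <;> first
    | omega
    | exact a (i - 2) (j - 2) (k - 2) (by omega) (by omega) (by omega) (by omega)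

theorem Y_av2 {m : ℕ} {ρ : Perm ℕ} (hρ : Fx m ρ) (a : Av (ρ * ρ)) :
    Av (Y m ρ * Y m ρ) := by
  refine av_of_lt ((mk_Fx _ _).mul (mk_Fx _ _)) ?_
  intro i j k hij hjk hk h1 h2
  rw [Y_sq hρ (by omega), Y_sq hρ (by omega)] at h1
  rw [Y_sq hρ (by omega), Y_sq hρ (by omega)] at h2
  have b1 := (hρ.mul hρ).cases (i - 2)
  have b2 := (hρ.mul hρ).cases (j - 2)
  have b3 := (hρ.mul hρ).cases (k - 2)
  rw [Perm.mul_apply] at b1 b2 b3
  unfold yF2 at h1 h2
  split_ifs at h1 h2 <;> first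
    | omega
    | exact a (i - 2) (j - 2) (k - 2) (by omega) (by omega)
        (by simp only [Perm.mul_apply]; omega) (by simp only [Perm.mul_apply]; omega)

theorem X_inj {m : ℕ} {ρ ρ' : Perm ℕ} (hρ : Fx m ρ) (hρ' : Fx m ρ') (h : X m ρ = X m ρ') :
    ρ = ρ' := by
  apply hρ.ext hρ'
  intro x hx
  have h1 := X_lt hρ (show x + 1 < m + 3 by omega)
  have h2 := X_lt hρ' (show x + 1 < m + 3 by omega)
  rw [h] at h1
  rw [h1] at h2
  unfold xF at h2
  rw [if_neg (by omega), if_pos (by omega), if_neg (by omega), if_pos (by omega)] at h2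
  simpa using h2

theorem Y_inj {m : ℕ} {ρ ρ' : Perm ℕ} (hρ : Fx m ρ) (hρ' : Fx m ρ') (h : Y m ρ = Y m ρ') :
    ρ = ρ' := by
  apply hρ.ext hρ'
  intro x hx
  have h1 := Y_lt hρ (show x + 2 < m + 6 by omega)
  have h2 := Y_lt hρ' (show x + 2 < m + 6 by omega)
  rw [h] at h1
  rw [h1] at h2
  unfold yF at h2
  rw [if_neg (by omega), if_pos (by omega), if_neg (by omega), if_pos (by omega)] at h2
  simpa using h2

theorem sset_inv {n : ℕ} {p : Perm ℕ} (h : p ∈ sset n) : p⁻¹ ∈ sset n := by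
  rw [mem_sset] at h ⊢
  refine ⟨h.1.inv, h.2.1.inv, ?_⟩
  rw [← mul_inv_rev]
  exact h.2.2.inv

theorem card_sset_ge (m : ℕ) :
    (sset (m + 5)).card + ((iset (m + 6)).card - (iset (m + 5)).card) + 2 * (sset (m + 3)).card
      + 2 * (sset m).card ≤ (sset (m + 6)).card := by
  classical
  have hX1 : (sset (m + 3)).card ≤
      ((sset (m + 6)).filter (fun p => p⁻¹ (m + 5) = 0 ∧ p (m + 5) = m + 4)).card := by
    apply Finset.card_le_card_of_injOn (fun ρ => X (m + 3) ρ)
    · intro ρ hρ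
      rw [Finset.mem_coe, mem_sset] at hρ
      rw [Finset.mem_coe, Finset.mem_filter, mem_sset]
      refine ⟨⟨mk_Fx _ _, X_av hρ.1 hρ.2.1, X_av2 hρ.1 hρ.2.2⟩, ?_, ?_⟩
      · rw [Perm.inv_eq_iff_eq, X_lt hρ.1 (by omega)]
        unfold xF; simp
      · simp only
        rw [X_lt hρ.1 (by omega)]
        unfold xF
        rw [if_neg (by omega), if_neg (by omega), if_neg (by omega)]
    · intro a ha b hb hab
      rw [Finset.mem_coe, mem_sset] at ha hb
      exact X_inj ha.1 hb.1 hab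
  have hX2 : (sset (m + 3)).card ≤
      ((sset (m + 6)).filter (fun p => p⁻¹ (m + 5) = m + 4 ∧ p (m + 5) = 0)).card := by
    refine hX1.trans ?_
    apply Finset.card_le_card_of_injOn (fun p => p⁻¹)
    · intro p hp
      rw [Finset.mem_coe, Finset.mem_filter] at hp ⊢
      refine ⟨sset_inv hp.1, ?_, ?_⟩
      · rw [inv_inv]; exact hp.2.2
      · exact hp.2.1
    · intro a _ b _ hab
      exact inv_injective hab
  have hY1 : (sset m).card ≤
      ((sset (m + 6)).filter (fun p => p⁻¹ (m + 5) = 1 ∧ p (m + 5) = m + 3)).card := by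
    apply Finset.card_le_card_of_injOn (fun ρ => Y m ρ)
    · intro ρ hρ
      rw [Finset.mem_coe, mem_sset] at hρ
      rw [Finset.mem_coe, Finset.mem_filter, mem_sset]
      refine ⟨⟨mk_Fx _ _, Y_av hρ.1 hρ.2.1, Y_av2 hρ.1 hρ.2.2⟩, ?_, ?_⟩
      · rw [Perm.inv_eq_iff_eq, Y_lt hρ.1 (by omega)]
        unfold yF
        rw [if_pos (by omega)]
        omega
      · simp only
        rw [Y_lt hρ.1 (by omega)]
        unfold yF
        rw [if_neg (by omega), if_neg (by omega), if_neg (by omega)]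
        omega
    · intro a ha b hb hab
      rw [Finset.mem_coe, mem_sset] at ha hb
      exact Y_inj ha.1 hb.1 hab
  have hY2 : (sset m).card ≤
      ((sset (m + 6)).filter (fun p => p⁻¹ (m + 5) = m + 3 ∧ p (m + 5) = 1)).card := by
    refine hY1.trans ?_
    apply Finset.card_le_card_of_injOn (fun p => p⁻¹)
    · intro p hp
      rw [Finset.mem_coe, Finset.mem_filter] at hp ⊢
      refine ⟨sset_inv hp.1, ?_, ?_⟩
      · rw [inv_inv]; exact hp.2.2
      · exact hp.2.1
    · intro a _ b _ hab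
      exact inv_injective hab
  have h1 : (sset (m + 5)).card ≤
      ((sset (m + 6)).filter (fun p => p (m + 5) = m + 5)).card := by
    apply Finset.card_le_card
    intro p hp
    rw [mem_sset] at hp
    rw [Finset.mem_filter, mem_sset]
    exact ⟨⟨hp.1.mono (by omega), hp.2⟩, hp.1 _ le_rfl⟩
  have h2 : (iset (m + 6)).card - (iset (m + 5)).card ≤
      ((sset (m + 6)).filter (fun p => p⁻¹ (m + 5) = p (m + 5) ∧ p (m + 5) ≠ m + 5)).card := by
    have e : (iset (m + 6)).card = (iset (m + 5)).card +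
        ((iset (m + 6)).filter (fun p => ¬ p (m + 5) = m + 5)).card := by
      rw [← Finset.card_filter_add_card_filter_not (s := iset (m + 6))
        (fun p => p (m + 5) = m + 5)]
      congr 1
      rw [← filter_top_iset (m + 5)]
    rw [e, Nat.add_sub_cancel_left]
    apply Finset.card_le_card
    intro p hp
    rw [Finset.mem_filter, mem_iset] at hp
    rw [Finset.mem_filter, mem_sset]
    obtain ⟨⟨a1, a2, a3⟩, a4⟩ := hp
    refine ⟨⟨a1, a2, by rw [a3]; exact av_one⟩, ?_, a4⟩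
    rw [Perm.inv_eq_iff_eq]
    rw [sq_eq_one_iff'] at a3
    exact (a3 _).symm
  rw [Finset.card_filter] at hX1 hX2 hY1 hY2 h1 h2
  rw [Finset.card_eq_sum_ones (sset (m + 6))]
  have key := Finset.sum_le_sum (s := sset (m + 6)) (f := fun p =>
      (if p (m + 5) = m + 5 then 1 else 0) +
      (if p⁻¹ (m + 5) = p (m + 5) ∧ p (m + 5) ≠ m + 5 then 1 else 0) +
      ((if p⁻¹ (m + 5) = 0 ∧ p (m + 5) = m + 4 then 1 else 0) +
      (if p⁻¹ (m + 5) = m + 4 ∧ p (m + 5) = 0 then 1 else 0)) +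
      ((if p⁻¹ (m + 5) = 1 ∧ p (m + 5) = m + 3 then 1 else 0) +
      (if p⁻¹ (m + 5) = m + 3 ∧ p (m + 5) = 1 then 1 else 0))) (g := fun _ => 1) (by
    intro p _
    generalize p⁻¹ (m + 5) = u
    generalize p (m + 5) = v
    split_ifs <;> omega)
  simp only [Finset.sum_add_distrib] at key
  omega

end Pool.Agent.Helper45K9.PP
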