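import Pool.Agent.Helper45K9.PP.Invol
import Pool.Agent.Helper45K9.PP.Strong
import Pool.Agent.Helper45K9.PP.CubeCount
import Pool.Agent.Helper45K9.PP.Powers
import Pool.Agent.Helper45K9.PP.Analysis

/-!
# Translation to permutations of `Fin n` and general patterns
-/

set_option autoImplicit false

namespace Pool.Agent.Helper45K9.PP

open Equiv Finset

/-- `π` contains the pattern `τ`. -/
def Contains {n k : ℕ} (π : Perm (Fin n)) (τ : Perm (Fin k)) : Prop :=
  ∃ f : Fin k → Fin n, StrictMono f ∧ ∀ a b, π (f a) < π (f b) ↔ τ a < τ b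

/-- The pattern 132. -/
def p132 : Perm (Fin 3) := Equiv.swap 1 2

theorem p132_0 : p132 0 = 0 := by decide
theorem p132_1 : p132 1 = 2 := by decide
theorem p132_2 : p132 2 = 1 := by decide

theorem contains_iff {n : ℕ} (π : Perm (Fin n)) :
    Contains π p132 ↔ ∃ i j k : Fin n, i < j ∧ j < k ∧ π i < π k ∧ π k < π j := by
  constructor
  · rintro ⟨f, hf, h⟩
    refine ⟨f 0, f 1, f 2, hf (by decide), hf (by decide), ?_, ?_⟩
    · rw [h 0 2, p132_0, p132_2]; decide
    · rw [h 2 1, p132_1, p132_2]; decide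
  · rintro ⟨i, j, k, hij, hjk, h1, h2⟩
    refine ⟨![i, j, k], ?_, ?_⟩
    · intro a b hab
      fin_cases a <;> fin_cases b <;> simp at hab ⊢
      · exact hij
      · exact hij.trans hjk
      · exact hjk
    · intro a b
      have e1 : ¬ (π k < π i) := not_lt.mpr h1.le
      have e2 : ¬ (π j < π k) := not_lt.mpr h2.le
      have e3 : π i < π j := h1.trans h2
      have e4 : ¬ (π j < π i) := not_lt.mpr e3.le
      fin_cases a <;> fin_cases b <;> simp [p132_0, p132_1, p132_2, h1, h2, e1, e2, e3, e4]

theorem av_ext_iff {n : ℕ} (π : Perm (Fin n)) : Av (ext n π) ↔ ¬ Contains π p132 := by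
  rw [contains_iff]
  constructor
  · rintro h ⟨i, j, k, hij, hjk, h1, h2⟩
    refine h i j k hij hjk ?_ ?_
    · rw [ext_lt _ _ i.2, ext_lt _ _ k.2]; exact h1
    · rw [ext_lt _ _ j.2, ext_lt _ _ k.2]; exact h2
  · intro h i j k hij hjk h1 h2
    apply h
    have hk : k < n := by
      by_contra hk
      push Not at hk
      rw [ext_ge π k hk] at h2
      have hj : n ≤ j := by
        by_contra hj
        push Not at hj
        have := (ext_Fx n π).lt hj
        omega
      rw [ext_ge π j hj] at h2
      omega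
    refine ⟨⟨i, by omega⟩, ⟨j, by omega⟩, ⟨k, hk⟩, hij, hjk, ?_, ?_⟩
    · rw [ext_lt _ _ (show i < n by omega), ext_lt _ _ hk] at h1; exact h1
    · rw [ext_lt _ _ (show j < n by omega), ext_lt _ _ hk] at h2; exact h2

theorem card_sset_le {n : ℕ} {A : Finset (Perm (Fin n))}
    (h : ∀ π : Perm (Fin n), ¬ Contains π p132 → ¬ Contains (π * π) p132 → π ∈ A) :
    (sset n).card ≤ A.card := by
  classical
  have : sset n ⊆ A.image (ext n) := by
    intro p hp
    rw [mem_sset] at hp
    obtain ⟨q, rfl⟩ := exists_ext hp.1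
    rw [Finset.mem_image]
    refine ⟨q, h q ((av_ext_iff q).mp hp.2.1) ?_, rfl⟩
    have h2 := hp.2.2
    rw [← pow_two, ext_pow, av_ext_iff, pow_two] at h2
    exact h2
  exact (Finset.card_le_card this).trans Finset.card_image_le

theorem card_le_qset {n : ℕ} {A : Finset (Perm (Fin n))}
    (h : ∀ π ∈ A, ∀ t : ℕ, 1 ≤ t → ¬ Contains (π ^ t) p132) :
    A.card ≤ (qset n).card := by
  apply Finset.card_le_card_of_injOn (ext n)
  · intro π hπ
    rw [Finset.mem_coe, mem_qset]
    refine ⟨ext_Fx n π, fun k => ?_⟩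
    rcases Nat.eq_zero_or_pos k with rfl | hk
    · rw [pow_zero]; exact av_one
    · rw [ext_pow, av_ext_iff]
      exact h π hπ k hk
  · intro a _ b _ hab
    exact ext_injective n hab

theorem main (n₀ : ℕ) (h : ∀ n, n₀ ≤ n → (15 / 16 : ℝ) * (sset n).card ≤ (qset (n + 1)).card) :
    False := by
  obtain ⟨K, hK⟩ := o_bound (fun n => (oset n).card) oset_zero card_oset_succ
  refine main_analysis (fun n => (iset n).card) (fun n => (tset n).card) (fun n => (oset n).card)
    (fun n => (qset n).card) (fun n => (sset n).card) card_iset_zero card_iset_succ ?_ 10 ?_ K hK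
    card_qset_le card_sset_ge n₀ h
  · intro N
    rw [card_iset_succ]
    exact Nat.le_add_right _ _
  · exact t_bound (fun n => (tset n).card) (fun N => (tplus N).card) W
      (fun N => ∑ p ∈ tplus N, wt (N + 1) p) card_tset_zero W_zero card_le_W sum_tplus_le W_succ
      card_tset_succ

end Pool.Agent.Helper45K9.PP
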