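import Pool.Agent.Helper45K9.PP.Basic

/-!
# The number of permutations avoiding 132 is the Catalan number
-/

set_option autoImplicit false

namespace Pool.Agent.Helper45K9.PP

open Equiv Finset

/-- Build a permutation of `[0, n)` from an injective function. -/
theorem exists_mk {n : ℕ} {f : ℕ → ℕ} (hf : ∀ x, x < n → f x < n)
    (hinj : ∀ x y, x < y → y < n → f x ≠ f y) :
    ∃ p : Perm ℕ, Fx n p ∧ ∀ x, x < n → p x = f x := by
  classical
  let F : Fin n → Fin n := fun x => ⟨f x, hf x x.2⟩
  have hF : Function.Injective F := by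
    intro x y hxy
    have h1 : f x = f y := congrArg Fin.val hxy
    rcases lt_trichotomy (x : ℕ) (y : ℕ) with h | h | h
    · exact absurd h1 (hinj x y h y.2)
    · exact Fin.ext h
    · exact absurd h1.symm (hinj y x h x.2)
  have hFb : Function.Bijective F := Finite.injective_iff_bijective.mp hF
  refine ⟨ext n (Equiv.ofBijective F hFb), ext_Fx _ _, fun x hx => ?_⟩
  rw [ext_lt _ _ hx]
  rfl

open Classical in
/-- The permutation of `[0, n)` given by `f` (if `f` is a permutation of `[0, n)`). -/
noncomputable def mk (n : ℕ) (f : ℕ → ℕ) : Perm ℕ :=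
  if h : ∃ p : Perm ℕ, Fx n p ∧ ∀ x, x < n → p x = f x then h.choose else 1

theorem mk_Fx (n : ℕ) (f : ℕ → ℕ) : Fx n (mk n f) := by
  unfold mk
  split
  · rename_i h; exact h.choose_spec.1
  · intro x _; rfl

theorem mk_lt {n : ℕ} {f : ℕ → ℕ} (hf : ∀ x, x < n → f x < n)
    (hinj : ∀ x y, x < y → y < n → f x ≠ f y) {x : ℕ} (hx : x < n) : mk n f x = f x := by
  unfold mk
  rw [dif_pos (exists_mk hf hinj)]
  exact (exists_mk hf hinj).choose_spec.2 x hx

section block

variable {N r : ℕ} {p : Perm ℕ}

theorem block_lt (hp : Fx (N + 1) p) (ha : Av p) (hr : p r = N) {x y : ℕ} (hx : x < r)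
    (hy : r < y) (hyN : y ≤ N) : p y < p x := by
  by_contra hc
  have h1 : p x ≠ p y := fun h => by have := p.injective h; omega
  have h2 : p y < N + 1 := hp.lt (by omega)
  have h3 : p y ≠ N := fun h => by
    have := p.injective (h.trans hr.symm); omega
  exact ha x r y hx hy (by omega) (by omega)

theorem r_le (hp : Fx (N + 1) p) (hr : p r = N) : r ≤ N := by
  by_contra hc
  have := hp r (by omega)
  omega

theorem block_ge (hp : Fx (N + 1) p) (ha : Av p) (hr : p r = N) {x : ℕ} (hx : x < r) :
    N - r ≤ p x ∧ p x < N := by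
  have hrN := r_le hp hr
  constructor
  · have hmap : ∀ y ∈ Finset.Ioc r N, p y ∈ Finset.range (p x) := by
      intro y hy
      rw [Finset.mem_Ioc] at hy
      rw [Finset.mem_range]
      exact block_lt hp ha hr hx hy.1 hy.2
    have := Finset.card_le_card_of_injOn (fun y => p y) hmap (fun a _ b _ h => p.injective h)
    simpa using this
  · have h2 : p x < N + 1 := hp.lt (by omega)
    have h3 : p x ≠ N := fun h => by
      have := p.injective (h.trans hr.symm); omega
    omega

theorem block_le (hp : Fx (N + 1) p) (ha : Av p) (hr : p r = N) {y : ℕ} (hy : r < y)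
    (hyN : y ≤ N) : p y < N - r := by
  have hrN := r_le hp hr
  have hpy : p y < N + 1 := hp.lt (by omega)
  have hmap : ∀ x ∈ Finset.range (r + 1), p x ∈ Finset.Ioc (p y) N := by
    intro x hx
    rw [Finset.mem_range] at hx
    rw [Finset.mem_Ioc]
    rcases Nat.lt_or_ge x r with h | h
    · exact ⟨block_lt hp ha hr h hy hyN, (block_ge hp ha hr h).2.le⟩
    · have : x = r := by omega
      subst this
      have h3 : p y ≠ N := fun h => by
        have := p.injective (h.trans hr.symm); omega
      omega
  have := Finset.card_le_card_of_injOn (fun x => p x) hmap (fun a _ b _ h => p.injective h)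
  simp at this
  omega

end block

open Classical in
/-- The permutations of `[0, n)` avoiding 132. -/
noncomputable def cset (n : ℕ) : Finset (Perm ℕ) := (P n).filter Av

open Classical in
theorem mem_cset {n : ℕ} {p : Perm ℕ} : p ∈ cset n ↔ Fx n p ∧ Av p := by
  unfold cset
  rw [Finset.mem_filter, mem_P]

/-- The decomposition function: `σ` above `τ`, with the maximum between. -/
def glueF (N r : ℕ) (σ τ : ℕ → ℕ) (x : ℕ) : ℕ :=
  if x < r then σ x + (N - r) else if x = r then N else τ (x - (r + 1))

theorem glue_facts {N r : ℕ} (hr : r ≤ N) {σ τ : Perm ℕ} (hσ : Fx r σ) (hτ : Fx (N - r) τ) :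
    (∀ x, x < N + 1 → glueF N r σ τ x < N + 1) ∧
    (∀ x y, x < y → y < N + 1 → glueF N r σ τ x ≠ glueF N r σ τ y) := by
  constructor
  · intro x hx
    unfold glueF
    split_ifs with h1 h2
    · have := hσ.lt h1; omega
    · omega
    · have : τ (x - (r + 1)) < N - r := hτ.lt (by omega)
      omega
  · intro x y hxy hy
    unfold glueF
    by_cases hx1 : x < r
    · have hsx := hσ.lt hx1
      rw [if_pos hx1]
      by_cases hy1 : y < r
      · rw [if_pos hy1]
        intro h
        have := σ.injective (show σ x = σ y by omega)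
        omega
      · rw [if_neg hy1]
        by_cases hy2 : y = r
        · rw [if_pos hy2]; omega
        · rw [if_neg hy2]
          have : τ (y - (r + 1)) < N - r := hτ.lt (by omega)
          omega
    · rw [if_neg hx1, if_neg (show ¬ y < r by omega), if_neg (show ¬ y = r by omega)]
      have h1 : τ (y - (r + 1)) < N - r := hτ.lt (by omega)
      by_cases hx2 : x = r
      · rw [if_pos hx2]; omega
      · rw [if_neg hx2]
        intro h
        have := τ.injective h
        omega

theorem glueF_1 {N r x : ℕ} {σ τ : ℕ → ℕ} (h : x < r) : glueF N r σ τ x = σ x + (N - r) := by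
  unfold glueF; rw [if_pos h]

theorem glueF_2 {N r : ℕ} {σ τ : ℕ → ℕ} : glueF N r σ τ r = N := by
  unfold glueF; rw [if_neg (lt_irrefl r), if_pos rfl]

theorem glueF_3 {N r x : ℕ} {σ τ : ℕ → ℕ} (h : r < x) :
    glueF N r σ τ x = τ (x - (r + 1)) := by
  unfold glueF; rw [if_neg (by omega), if_neg (by omega)]

theorem glue_av {N r : ℕ} (hr : r ≤ N) {σ τ : Perm ℕ} (hσ : Fx r σ) (hτ : Fx (N - r) τ)
    (aσ : Av σ) (aτ : Av τ) : Av (mk (N + 1) (glueF N r σ τ)) := by
  obtain ⟨hf, hi⟩ := glue_facts hr hσ hτ
  refine av_of_lt (mk_Fx _ _) ?_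
  intro i j k hij hjk hk h1 h2
  rw [mk_lt hf hi (by omega), mk_lt hf hi (by omega)] at h1
  rw [mk_lt hf hi (by omega), mk_lt hf hi (by omega)] at h2
  rcases lt_trichotomy i r with h | h | h
  · rw [glueF_1 h] at h1
    rcases lt_trichotomy k r with h' | h' | h'
    · rw [glueF_1 h'] at h1 h2
      rw [glueF_1 (show j < r by omega)] at h2
      exact aσ i j k hij hjk (by omega) (by omega)
    · subst h'
      rw [glueF_2] at h2
      rw [glueF_1 (show j < k by omega)] at h2
      have : σ j < k := hσ.lt (by omega)
      omega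
    · rw [glueF_3 h'] at h1
      have : τ (k - (r + 1)) < N - r := hτ.lt (by omega)
      omega
  · subst h
    rw [glueF_2, glueF_3 (show i < k by omega)] at h1
    have : τ (k - (i + 1)) < N - i := hτ.lt (by omega)
    omega
  · rw [glueF_3 h, glueF_3 (show r < k by omega)] at h1
    rw [glueF_3 (show r < k by omega), glueF_3 (show r < j by omega)] at h2
    exact aτ (i - (r+1)) (j - (r+1)) (k - (r+1)) (by omega) (by omega) h1 h2

theorem card_cset_succ (N : ℕ) :
    (cset (N + 1)).card = ∑ r ∈ Finset.range (N + 1), (cset r).card * (cset (N - r)).card := by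
  classical
  have : ∑ r ∈ Finset.range (N + 1), (cset r).card * (cset (N - r)).card =
      ((Finset.range (N + 1)).sigma (fun r => (cset r) ×ˢ (cset (N - r)))).card := by
    rw [Finset.card_sigma]
    apply Finset.sum_congr rfl
    intro r _
    rw [Finset.card_product]
  rw [this]
  symm
  apply Finset.card_bij (fun a _ => mk (N + 1) (glueF N a.1 a.2.1 a.2.2))
  · rintro ⟨r, σ, τ⟩ h
    simp only [Finset.mem_sigma, Finset.mem_range, Finset.mem_product, mem_cset] at h
    obtain ⟨hr, ⟨h1, h2⟩, h3, h4⟩ := h
    rw [mem_cset]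
    exact ⟨mk_Fx _ _, glue_av (show r ≤ N by omega) h1 h3 h2 h4⟩
  · rintro ⟨r, σ, τ⟩ h ⟨r', σ', τ'⟩ h' heq
    simp only [Finset.mem_sigma, Finset.mem_range, Finset.mem_product, mem_cset] at h h'
    obtain ⟨hr, ⟨h1, h2⟩, h3, h4⟩ := h
    obtain ⟨hr', ⟨h1', h2'⟩, h3', h4'⟩ := h'
    simp only at heq
    obtain ⟨hf, hi⟩ := glue_facts (show r ≤ N by omega) h1 h3
    obtain ⟨hf', hi'⟩ := glue_facts (show r' ≤ N by omega) h1' h3'
    have key : ∀ x, x < N + 1 → glueF N r σ τ x = glueF N r' σ' τ' x := by
      intro x hx
      rw [← mk_lt hf hi hx, ← mk_lt hf' hi' hx, heq]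
    have hrr : r = r' := by
      by_contra hne
      have k1 := key r (by omega)
      rw [glueF_2] at k1
      rcases Nat.lt_or_gt_of_ne hne with h | h
      · rw [glueF_1 h] at k1
        have := h1'.lt h
        omega
      · rw [glueF_3 h] at k1
        have : τ' (r - (r' + 1)) < N - r' := h3'.lt (by omega)
        omega
    subst hrr
    have hs : σ = σ' := by
      apply h1.ext h1'
      intro x hx
      have := key x (by omega)
      rw [glueF_1 hx, glueF_1 hx] at this
      omega
    have ht : τ = τ' := by
      apply h3.ext h3'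
      intro x hx
      have := key (x + (r + 1)) (by omega)
      rw [glueF_3 (by omega), glueF_3 (by omega)] at this
      simpa using this
    subst hs; subst ht; rfl
  · intro p hp
    rw [mem_cset] at hp
    obtain ⟨hp, ha⟩ := hp
    set r := p⁻¹ N with hrdef
    have hr : p r = N := by simp [hrdef]
    have hrN := r_le hp hr
    obtain ⟨σ, hσ, hσ2⟩ := restrict (N := r) (p := p) (φ := fun x => x)
      (ψ := fun y => y + (N - r)) (fun x y hxy _ => hxy) (fun x hx => by
        have := block_ge hp ha hr hx
        exact ⟨p x - (N - r), by omega, by omega⟩)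
    obtain ⟨τ, hτ, hτ2⟩ := restrict (N := N - r) (p := p) (φ := fun x => x + (r + 1))
      (ψ := fun y => y) (fun x y hxy _ => by omega) (fun x hx => by
        have := block_le hp ha hr (show r < x + (r + 1) by omega) (by omega)
        exact ⟨p (x + (r + 1)), this, rfl⟩)
    have aσ : Av σ := by
      refine av_of_lt hσ ?_
      intro i j k hij hjk hk h1 h2
      have e1 := (hσ2 i (by omega)).2
      have e2 := (hσ2 j (by omega)).2
      have e3 := (hσ2 k (by omega)).2
      exact ha i j k hij hjk (by omega) (by omega)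
    have aτ : Av τ := by
      refine av_of_lt hτ ?_
      intro i j k hij hjk hk h1 h2
      have e1 := (hτ2 i (by omega)).2
      have e2 := (hτ2 j (by omega)).2
      have e3 := (hτ2 k (by omega)).2
      exact ha (i + (r+1)) (j + (r+1)) (k + (r+1)) (by omega) (by omega) (by omega) (by omega)
    refine ⟨⟨r, σ, τ⟩, ?_, ?_⟩
    · simp only [Finset.mem_sigma, Finset.mem_range, Finset.mem_product, mem_cset]
      exact ⟨by omega, ⟨hσ, aσ⟩, hτ, aτ⟩
    · obtain ⟨hf, hi⟩ := glue_facts hrN hσ hτ
      apply (mk_Fx _ _).ext hp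
      intro x hx
      simp only
      rw [mk_lt hf hi hx]
      rcases lt_trichotomy x r with h | h | h
      · rw [glueF_1 h]
        exact (hσ2 x h).2
      · rw [h, glueF_2, hr]
      · rw [glueF_3 h]
        have := (hτ2 (x - (r + 1)) (by omega)).2
        rw [this]
        congr 1
        omega

theorem card_cset_zero : (cset 0).card = 1 := by
  rw [Finset.card_eq_one]
  refine ⟨1, ?_⟩
  ext p
  rw [mem_cset, Finset.mem_singleton]
  constructor
  · rintro ⟨h, _⟩
    ext x
    exact h x (Nat.zero_le _)
  · rintro rfl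
    exact ⟨fun x _ => rfl, av_one⟩

theorem card_cset (n : ℕ) : (cset n).card = catalan n := by
  induction n using Nat.strong_induction_on with
  | _ n ih =>
    cases n with
    | zero => rw [card_cset_zero, catalan_zero]
    | succ N =>
      rw [card_cset_succ, catalan_succ, ← Fin.sum_univ_eq_sum_range
        (fun r => (cset r).card * (cset (N - r)).card)]
      apply Finset.sum_congr rfl
      intro i _
      rw [ih i (by omega), ih (N - i) (by omega)]

end Pool.Agent.Helper45K9.PP
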