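import Pool.Agent.Helper45K9.PP.Invol

/-!
# Permutations avoiding 132 with `p ^ 3 = 1`: the structure
-/

set_option autoImplicit false

namespace Pool.Agent.Helper45K9.PP

open Equiv Finset

/-- The hypotheses on a permutation of order three of `[0, N]`: `p r = N`, `p N = s`, `r < s`. -/
structure Plus (N r s : ℕ) (p : Perm ℕ) : Prop where
  fx : Fx (N + 1) p
  av : Av p
  cube : ∀ x, p (p (p x)) = x
  hr : p r = N
  hs : p N = s
  hrs : r < s

namespace Plus

variable {N r s : ℕ} {p : Perm ℕ}

theorem inv_eq (h : Plus N r s p) (x : ℕ) : p⁻¹ x = p (p x) := by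
  rw [Perm.inv_eq_iff_eq]; exact (h.cube x).symm

theorem ps (h : Plus N r s p) : p s = r := by
  rw [← h.hs, ← h.hr]; exact h.cube r

theorem inv_s (h : Plus N r s p) : p⁻¹ s = N := by
  rw [Perm.inv_eq_iff_eq]; exact h.hs.symm

theorem inv_N (h : Plus N r s p) : p⁻¹ N = r := by
  rw [Perm.inv_eq_iff_eq]; exact h.hr.symm

theorem s_le (h : Plus N r s p) : s ≤ N := by
  have := h.fx.lt (show N < N + 1 by omega)
  rw [h.hs] at this; omega

theorem s_lt (h : Plus N r s p) : s < N := by
  have h1 := h.s_le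
  rcases Nat.eq_or_lt_of_le h1 with e | e
  · have h2 := h.ps
    have h3 := h.hs
    have h4 := h.hrs
    rw [e] at h2
    rw [h3] at h2
    omega
  · exact e

theorem rs_lt (h : Plus N r s p) : r + s < N := by
  have h1 := block_le h.fx.inv h.av.inv h.inv_s h.s_lt le_rfl
  rw [h.inv_N] at h1
  omega

/-- `[0, r]` goes to `[N - r, N]`. -/
theorem bot (h : Plus N r s p) {x : ℕ} (hx : x ≤ r) : N - r ≤ p x ∧ p x ≤ N := by
  rcases Nat.eq_or_lt_of_le hx with e | e
  · subst e; rw [h.hr]; omega
  · have := block_ge h.fx h.av h.hr e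
    omega

theorem top_inv (h : Plus N r s p) {x : ℕ} (hx : N - r ≤ x) (hx' : x ≤ N) : p⁻¹ x ≤ r := by
  by_contra hc
  have h1 : p⁻¹ x < N + 1 := h.fx.inv.lt (by omega)
  have h2 := block_le h.fx h.av h.hr (show r < p⁻¹ x by omega) (by omega)
  rw [ai] at h2
  omega

theorem top1 (h : Plus N r s p) {x : ℕ} (hx : N - r ≤ x) (hx' : x ≤ N) : r < p x ∧ p x ≤ s := by
  have hrs := h.hrs
  have hsN := h.s_lt
  have hh := h.rs_lt
  constructor
  · have h1 := h.top_inv hx hx'
    have h2 : p x = p⁻¹ (p⁻¹ x) := by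
      rw [eq_comm, Perm.inv_eq_iff_eq, Perm.inv_eq_iff_eq]
      exact (h.cube x).symm
    rw [h2]
    have h3 := block_lt h.fx.inv h.av.inv h.inv_s (show p⁻¹ x < s by omega) hsN le_rfl
    rw [h.inv_N] at h3
    exact h3
  · by_contra hc
    have h1 : p x < N + 1 := h.fx.lt (by omega)
    have h2 := block_le h.fx.inv h.av.inv h.inv_s (show s < p x by omega) (by omega)
    rw [ia] at h2
    omega

theorem top_inc (h : Plus N r s p) {x y : ℕ} (hx : N - r ≤ x) (hxy : x < y) (hy : y ≤ N) :
    p x < p y := by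
  by_contra hc
  have hh := h.rs_lt
  have h1 := h.top1 (show N - r ≤ y by omega) hy
  have h2 : p x ≠ p y := fun e => by have := p.injective e; omega
  have h3 := h.ps
  exact h.av s x y (by omega) hxy (by omega) (by omega)

theorem top_le (h : Plus N r s p) (j : ℕ) (hj : j ≤ r) : p (N - j) + j ≤ s := by
  have hh := h.rs_lt
  induction j with
  | zero => simp [h.hs]
  | succ j ih =>
    have h1 := ih (by omega)
    have h2 := h.top_inc (x := N - (j + 1)) (y := N - j) (by omega) (by omega) (by omega)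
    omega

theorem top_ge (h : Plus N r s p) (j : ℕ) (hj : j ≤ r) : p (N - r) + j ≤ p (N - r + j) := by
  have hh := h.rs_lt
  induction j with
  | zero => simp
  | succ j ih =>
    have h1 := ih (by omega)
    have h2 := h.top_inc (x := N - r + j) (y := N - r + (j + 1)) (by omega) (by omega) (by omega)
    omega

theorem mid_le (h : Plus N r s p) {x : ℕ} (hx : p (N - r) ≤ x) (hx' : x ≤ s) : p x ≤ r := by
  have hps := h.ps
  have hh := h.rs_lt
  rcases Nat.eq_or_lt_of_le hx' with e | e
  · subst e; omega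
  have hm : p (p (N - r)) ≤ r := by
    have := h.top_inv (x := N - r) le_rfl (by omega)
    rwa [h.inv_eq] at this
  rcases Nat.eq_or_lt_of_le hx with e' | e'
  · rw [← e']; exact hm
  by_contra hc
  have hne : p (p (N - r)) ≠ r := by
    intro e2
    have e3 := p.injective (e2.trans hps.symm)
    omega
  exact h.av (p (N - r)) x s e' e (by omega) (by omega)

theorem m0 (h : Plus N r s p) : p (N - r) + r = s := by
  have hh := h.rs_lt
  have h1 := h.top_le r le_rfl
  have hmap : ∀ x ∈ Finset.Icc (p (N - r)) s, p x ∈ Finset.range (r + 1) := by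
    intro x hx
    rw [Finset.mem_Icc] at hx
    rw [Finset.mem_range]
    have := h.mid_le hx.1 hx.2
    omega
  have := Finset.card_le_card_of_injOn (fun y => p y) hmap (fun a _ b _ h => p.injective h)
  simp at this
  omega

theorem top_eq (h : Plus N r s p) {j : ℕ} (hj : j ≤ r) : p (N - j) = s - j := by
  have hh := h.rs_lt
  have h0 := h.m0
  have h1 := h.top_le j hj
  have h2 := h.top_ge (r - j) (by omega)
  have e : N - r + (r - j) = N - j := by omega
  rw [e] at h2
  omega

theorem r_lt_mid (h : Plus N r s p) : 2 * r < s := by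
  have h1 := (h.top1 (x := N - r) le_rfl (by omega)).1
  have h2 := h.m0
  omega

/-- `[N - r, N]` goes to `[s - r, s]`. -/
theorem top (h : Plus N r s p) {x : ℕ} (hx : N - r ≤ x) (hx' : x ≤ N) :
    p x = s - (N - x) := by
  have hh := h.rs_lt
  have := h.top_eq (j := N - x) (by omega)
  rwa [show N - (N - x) = x by omega] at this

/-- `[s - r, s]` goes to `[0, r]`. -/
theorem mid (h : Plus N r s p) {x : ℕ} (hx : s - r ≤ x) (hx' : x ≤ s) : p x ≤ r := by
  have := h.m0
  exact h.mid_le (by omega) hx'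

/-- The rest is invariant. -/
theorem rest (h : Plus N r s p) {x : ℕ} (hx : (r < x ∧ x < s - r) ∨ (s < x ∧ x < N - r)) :
    (r < p x ∧ p x < s - r) ∨ (s < p x ∧ p x < N - r) := by
  have hh := h.rs_lt
  have h2r := h.r_lt_mid
  have hc := h.cube x
  have hlt : p x < N + 1 := h.fx.lt (by omega)
  have n1 : ¬ p x ≤ r := by
    intro h1
    have h2 := h.bot h1
    have h3 := h.top h2.1 h2.2
    omega
  have n2 : ¬ (s - r ≤ p x ∧ p x ≤ s) := by
    intro h1
    have h2 := h.mid h1.1 h1.2
    have h3 := h.bot h2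
    omega
  have n3 : ¬ (N - r ≤ p x) := by
    intro h1
    have h2 := h.top h1 (by omega)
    have h3 := h.mid (x := p (p x)) (by omega) (by omega)
    omega
  omega

/-- The part above `s` goes below `s - r`, increasingly. -/
theorem up (h : Plus N r s p) {x : ℕ} (hx : s < x) (hx' : x < N - r) : p x < s - r := by
  have hh := h.rs_lt
  have h2r := h.r_lt_mid
  have h1 := h.rest (Or.inr ⟨hx, hx'⟩)
  by_contra hc
  have h2 := h.m0
  have h3 := h.ps
  exact h.av s x (N - r) hx hx' (by omega) (by omega)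

theorem up_inc (h : Plus N r s p) {x y : ℕ} (hx : s < x) (hxy : x < y) (hy : y < N - r) :
    p x < p y := by
  have h1 := h.rest (x := y) (Or.inr ⟨by omega, hy⟩)
  by_contra hc
  have h2 : p x ≠ p y := fun e => by have := p.injective e; omega
  have h3 := h.ps
  have h2r := h.r_lt_mid
  exact h.av s x y hx hxy (by omega) (by omega)

theorem first (h : Plus N r s p) {x y : ℕ} (hx : s < p x) (hy : p y < s) (hxN : x ≤ N)
    (hyN : y < N) : x < y := by
  by_contra hc
  have h1 : x ≠ y := fun e => by subst e; omega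
  have h2 : x ≠ N := fun e => by subst e; rw [h.hs] at hx; omega
  have h3 := h.hs
  exact h.av y x N (by omega) (by omega) (by omega) (by omega)

end Plus

/-- The embedding of the rest. -/
def phi (r c : ℕ) (x : ℕ) : ℕ := if x < c then x + (r + 1) else x + 2 * (r + 1)

theorem phi_mono {r c x y : ℕ} (h : x < y) : phi r c x < phi r c y := by
  unfold phi; split_ifs <;> omega

theorem phi_inj {r c x y : ℕ} (h : phi r c x = phi r c y) : x = y := by
  rcases lt_trichotomy x y with h1 | h1 | h1
  · have := phi_mono (r := r) (c := c) h1; omega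
  · exact h1
  · have := phi_mono (r := r) (c := c) h1; omega

/-- `h` is a valid cut for `τ` on `[0, n)`. -/
def Valid (n h : ℕ) (τ : Perm ℕ) : Prop :=
  (∀ x, x < h → n - h ≤ τ x) ∧ (∀ x, n - h ≤ x → x < n → τ x < n - h) ∧
    (∀ x y, n - h ≤ x → x < y → y < n → τ x < τ y)

theorem valid_zero (n : ℕ) {τ : Perm ℕ} : Valid n 0 τ := by
  refine ⟨fun x hx => by omega, fun x hx hx' => by omega, fun x y hx hxy hy => by omega⟩

/-- The code of a permutation: `σ` is the pattern on `[0, r)`, `τ` the pattern on the rest. -/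
structure Code (N r h : ℕ) (σ τ p : Perm ℕ) : Prop where
  fσ : Fx r σ
  fτ : Fx (N - 2 - 3 * r) τ
  eσ : ∀ x, x < r → σ x + (N - r) = p x
  eτ : ∀ x, x < N - 2 - 3 * r → phi r (N - 2 - 3 * r - h) (τ x) =
    p (phi r (N - 2 - 3 * r - h) x)

theorem exists_code {N r s : ℕ} {p : Perm ℕ} (h : Plus N r s p) :
    ∃ σ τ : Perm ℕ, Code N r (N - r - s - 1) σ τ p ∧ Av σ ∧ Av τ ∧ (∀ x, τ (τ (τ x)) = x) ∧
      Valid (N - 2 - 3 * r) (N - r - s - 1) τ := by
  have hh := h.rs_lt
  have h2r := h.r_lt_mid
  have hrs := h.hrs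
  obtain ⟨σ, hσ, hσ2⟩ := restrict (N := r) (p := p) (φ := fun x => x)
    (ψ := fun y => y + (N - r)) (fun x y hxy _ => hxy) (fun x hx => by
      have := block_ge h.fx h.av h.hr hx
      exact ⟨p x - (N - r), by omega, by omega⟩)
  have hc : N - 2 - 3 * r - (N - r - s - 1) = s - 1 - 2 * r := by omega
  set K := N - 2 - 3 * r with hK
  set hh' := N - r - s - 1 with hh'def
  have hphi : ∀ x, x < K → (r < phi r (K - hh') x ∧ phi r (K - hh') x < s - r) ∨
      (s < phi r (K - hh') x ∧ phi r (K - hh') x < N - r) := by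
    intro x hx
    rw [hc]
    unfold phi
    split_ifs <;> omega
  obtain ⟨τ, hτ, hτ2⟩ := restrict (N := K) (p := p) (φ := phi r (K - hh'))
    (ψ := phi r (K - hh')) (fun x y hxy _ => phi_mono hxy) (fun x hx => by
      rcases h.rest (hphi x hx) with h1 | h1
      · refine ⟨p (phi r (K - hh') x) - (r + 1), by omega, ?_⟩
        unfold phi
        unfold phi at h1
        rw [hc] at h1 ⊢
        split_ifs at h1 ⊢ <;> omega
      · refine ⟨p (phi r (K - hh') x) - 2 * (r + 1), by omega, ?_⟩
        unfold phi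
        unfold phi at h1
        rw [hc] at h1 ⊢
        split_ifs at h1 ⊢ <;> omega)
  have aσ : Av σ := by
    refine av_of_lt hσ ?_
    intro i j k hij hjk hk h1 h2
    have e1 := (hσ2 i (by omega)).2
    have e2 := (hσ2 j (by omega)).2
    have e3 := (hσ2 k (by omega)).2
    exact h.av i j k hij hjk (by omega) (by omega)
  have aτ : Av τ := by
    refine av_of_lt hτ ?_
    intro i j k hij hjk hk h1 h2
    have e1 := (hτ2 i (by omega)).2
    have e2 := (hτ2 j (by omega)).2
    have e3 := (hτ2 k (by omega)).2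
    refine h.av _ _ _ (phi_mono (r := r) (c := K - hh') hij)
      (phi_mono (r := r) (c := K - hh') hjk) ?_ ?_
    · rw [← e1, ← e3]; exact phi_mono h1
    · rw [← e2, ← e3]; exact phi_mono h2
  have cτ : ∀ x, τ (τ (τ x)) = x := by
    intro x
    by_cases hx : x < K
    · obtain ⟨e1, e2⟩ := hτ2 x hx
      obtain ⟨e3, e4⟩ := hτ2 _ e1
      obtain ⟨e5, e6⟩ := hτ2 _ e3
      rw [e4, e2, h.cube] at e6
      exact phi_inj e6
    · rw [hτ x (by omega), hτ x (by omega), hτ x (by omega)]
  have v2 : ∀ x, K - hh' ≤ x → x < K → τ x < K - hh' := by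
    intro x hx hx'
    obtain ⟨e1, e2⟩ := hτ2 x hx'
    have e3 : phi r (K - hh') x = x + 2 * (r + 1) := by
      unfold phi; rw [if_neg (by omega)]
    rw [e3] at e2
    have e4 := h.up (x := x + 2 * (r + 1)) (by omega) (by omega)
    rw [← e2] at e4
    unfold phi at e4
    split_ifs at e4 <;> omega
  refine ⟨σ, τ, ⟨hσ, hτ, fun x hx => (hσ2 x hx).2, fun x hx => (hτ2 x hx).2⟩, aσ, aτ, cτ,
    ?_, v2, ?_⟩
  · -- first hh' positions have the top values
    intro x0 hx0
    by_contra hlt
    have hx0K : x0 < K := by omega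
    -- all values in [K - hh', K) are at positions < x0
    have hmap : ∀ y ∈ Finset.Ico (K - hh') K, τ⁻¹ y ∈ Finset.range x0 := by
      intro y hy
      rw [Finset.mem_Ico] at hy
      rw [Finset.mem_range]
      have hy1 : τ⁻¹ y < K := hτ.symm_lt hy.2
      obtain ⟨a1, a2⟩ := hτ2 _ hy1
      rw [ai] at a2
      obtain ⟨b1, b2⟩ := hτ2 x0 hx0K
      have c1 : s < p (phi r (K - hh') (τ⁻¹ y)) := by
        rw [← a2]; unfold phi; rw [if_neg (by omega)]; omega
      have c2 : p (phi r (K - hh') x0) < s := by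
        rw [← b2]; unfold phi; rw [if_pos (by omega)]; omega
      have d1 := hphi _ hy1
      have d2 := hphi _ hx0K
      have := h.first c1 c2 (by omega) (by omega)
      by_contra hge
      rcases Nat.eq_or_lt_of_le (not_lt.mp hge) with e | e
      · rw [e] at this; omega
      · have := phi_mono (r := r) (c := K - hh') e; omega
    have := Finset.card_le_card_of_injOn (fun y => τ⁻¹ y) hmap
      (fun a _ b _ hab => τ⁻¹.injective hab)
    simp at this
    omega
  · intro x y hx hxy hy
    obtain ⟨e1, e2⟩ := hτ2 x (by omega)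
    obtain ⟨e3, e4⟩ := hτ2 y hy
    have f1 : phi r (K - hh') x = x + 2 * (r + 1) := by
      unfold phi; rw [if_neg (by omega)]
    have f2 : phi r (K - hh') y = y + 2 * (r + 1) := by
      unfold phi; rw [if_neg (by omega)]
    have g := h.up_inc (x := x + 2 * (r + 1)) (y := y + 2 * (r + 1)) (by omega) (by omega)
      (by omega)
    rw [← f1, ← f2, ← e2, ← e4] at g
    by_contra hge
    rcases Nat.eq_or_lt_of_le (not_lt.mp hge) with e | e
    · rw [e] at g; omega
    · have := phi_mono (r := r) (c := K - hh') e; omega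

theorem code_inj {N r h s s' : ℕ} {σ τ p p' : Perm ℕ} (hp : Plus N r s p) (hp' : Plus N r s' p')
    (hs : h = N - r - s - 1) (hs' : h = N - r - s' - 1)
    (c : Code N r h σ τ p) (c' : Code N r h σ τ p') : p = p' := by
  have hh := hp.rs_lt
  have hh' := hp'.rs_lt
  have h2r := hp.r_lt_mid
  have e : s = s' := by omega
  subst e
  have hbot : ∀ x, x ≤ r → p x = p' x := by
    intro x hx
    rcases Nat.eq_or_lt_of_le hx with e | e
    · rw [e, hp.hr, hp'.hr]
    · rw [← c.eσ x e, ← c'.eσ x e]
  have htop : ∀ x, N - r ≤ x → x ≤ N → p x = p' x := by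
    intro x h1 h2
    rw [hp.top h1 h2, hp'.top h1 h2]
  have hrest : ∀ x, (r < x ∧ x < s - r) ∨ (s < x ∧ x < N - r) → p x = p' x := by
    intro x hx
    have hc : N - 2 - 3 * r - h = s - 1 - 2 * r := by omega
    rcases hx with hx | hx
    · have f : phi r (N - 2 - 3 * r - h) (x - (r + 1)) = x := by
        rw [hc]; unfold phi; rw [if_pos (by omega)]; omega
      have a := c.eτ (x - (r + 1)) (by omega)
      have b := c'.eτ (x - (r + 1)) (by omega)
      rw [f] at a b
      rw [← a, b]
    · have f : phi r (N - 2 - 3 * r - h) (x - 2 * (r + 1)) = x := by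
        rw [hc]; unfold phi; rw [if_neg (by omega)]; omega
      have a := c.eτ (x - 2 * (r + 1)) (by omega)
      have b := c'.eτ (x - 2 * (r + 1)) (by omega)
      rw [f] at a b
      rw [← a, b]
  apply hp.fx.ext hp'.fx
  intro x hx
  by_cases h1 : x ≤ r
  · exact hbot x h1
  by_cases h2 : N - r ≤ x
  · exact htop x h2 (by omega)
  by_cases h3 : s - r ≤ x ∧ x ≤ s
  · -- x = p (N - j)
    have e1 := hp.top (x := N - (s - x)) (by omega) (by omega)
    have e2 := hp'.top (x := N - (s - x)) (by omega) (by omega)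
    have e3 : s - (N - (N - (s - x))) = x := by omega
    rw [e3] at e1 e2
    have f1 : p x = p⁻¹ (N - (s - x)) := by rw [hp.inv_eq, e1]
    have f2 : p' x = p'⁻¹ (N - (s - x)) := by rw [hp'.inv_eq, e2]
    rw [f1, f2]
    have g1 := hp.top_inv (x := N - (s - x)) (by omega) (by omega)
    rw [eq_comm, Perm.inv_eq_iff_eq, ← hbot _ g1, ai]
  · exact hrest x (by omega)

end Pool.Agent.Helper45K9.PP
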