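import Pool.Agent.Helper45K9.PP.Catalan

/-!
# Involutions avoiding 132
-/

set_option autoImplicit false

namespace Pool.Agent.Helper45K9.PP

open Equiv Finset

open Classical in
/-- The involutions of `[0, n)` avoiding 132. -/
noncomputable def iset (n : ℕ) : Finset (Perm ℕ) := (P n).filter (fun p => Av p ∧ p * p = 1)

open Classical in
theorem mem_iset {n : ℕ} {p : Perm ℕ} : p ∈ iset n ↔ Fx n p ∧ Av p ∧ p * p = 1 := by
  unfold iset
  rw [Finset.mem_filter, mem_P]

/-- An involution from `σ` and an inner involution `τ`. -/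
noncomputable def invF (N r : ℕ) (σ : Perm ℕ) (τ : ℕ → ℕ) (x : ℕ) : ℕ :=
  if x < r then σ x + (N - r) else if x = r then N else
  if x < N - r then τ (x - (r + 1)) + (r + 1) else
  if x < N then σ⁻¹ (x - (N - r)) else r

section

variable {N r : ℕ} {σ : Perm ℕ} {τ : ℕ → ℕ}

theorem invF_1 {x : ℕ} (h : x < r) : invF N r σ τ x = σ x + (N - r) := by
  unfold invF; rw [if_pos h]

theorem invF_2 : invF N r σ τ r = N := by
  unfold invF; rw [if_neg (lt_irrefl r), if_pos rfl]

theorem invF_3 {x : ℕ} (h : r < x) (h' : x < N - r) :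
    invF N r σ τ x = τ (x - (r + 1)) + (r + 1) := by
  unfold invF; rw [if_neg (by omega), if_neg (by omega), if_pos h']

theorem invF_4 (hr : 2 * r + 1 ≤ N) {x : ℕ} (h : N - r ≤ x) (h' : x < N) :
    invF N r σ τ x = σ⁻¹ (x - (N - r)) := by
  unfold invF; rw [if_neg (by omega), if_neg (by omega), if_neg (by omega), if_pos h']

theorem invF_5 (hr : 2 * r + 1 ≤ N) : invF N r σ τ N = r := by
  unfold invF; rw [if_neg (by omega), if_neg (by omega), if_neg (by omega), if_neg (by omega)]

end

/-- Cases for a position. -/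
theorem inv_cases {N r x : ℕ} (hx : x < N + 1) :
    x < r ∨ x = r ∨ (r < x ∧ x < N - r) ∨ (r < x ∧ N - r ≤ x ∧ x < N) ∨ (x = N) := by omega

theorem invF_invol {N r : ℕ} (hr : 2 * r + 1 ≤ N) {σ τ : Perm ℕ} (hσ : Fx r σ)
    (hτ : Fx (N - 1 - 2 * r) τ) (ττ : ∀ x, τ (τ x) = x) {x : ℕ} (hx : x < N + 1) :
    invF N r σ τ (invF N r σ τ x) = x ∧ invF N r σ τ x < N + 1 := by
  rcases inv_cases (r := r) hx with h | h | ⟨h, h'⟩ | ⟨h, h', h''⟩ | h
  · rw [invF_1 h]
    have := hσ.lt h
    rw [invF_4 hr (by omega) (by omega), Nat.add_sub_cancel, ia]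
    constructor
    · rfl
    · omega
  · subst h
    rw [invF_2, invF_5 hr]
    omega
  · rw [invF_3 h h']
    have : τ (x - (r + 1)) < N - 1 - 2 * r := hτ.lt (by omega)
    rw [invF_3 (by omega) (by omega)]
    have e : τ (x - (r + 1)) + (r + 1) - (r + 1) = τ (x - (r + 1)) := by omega
    rw [e, ττ]
    omega
  · rw [invF_4 hr h' h'']
    have : σ⁻¹ (x - (N - r)) < r := hσ.symm_lt (by omega)
    rw [invF_1 this, ai]
    omega
  · subst h
    rw [invF_5 hr, invF_2]
    omega

theorem invF_facts {N r : ℕ} (hr : 2 * r + 1 ≤ N) {σ τ : Perm ℕ} (hσ : Fx r σ)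
    (hτ : Fx (N - 1 - 2 * r) τ) (ττ : ∀ x, τ (τ x) = x) :
    (∀ x, x < N + 1 → invF N r σ τ x < N + 1) ∧
    (∀ x y, x < y → y < N + 1 → invF N r σ τ x ≠ invF N r σ τ y) := by
  refine ⟨fun x hx => (invF_invol hr hσ hτ ττ hx).2, fun x y hxy hy h => ?_⟩
  have h1 := (invF_invol hr hσ hτ ττ (show x < N + 1 by omega)).1
  have h2 := (invF_invol hr hσ hτ ττ hy).1
  rw [h] at h1
  omega

theorem invF_av {N r : ℕ} (hr : 2 * r + 1 ≤ N) {σ τ : Perm ℕ} (hσ : Fx r σ)
    (hτ : Fx (N - 1 - 2 * r) τ) (ττ : ∀ x, τ (τ x) = x) (aσ : Av σ) (aτ : Av τ) :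
    Av (mk (N + 1) (invF N r σ τ)) := by
  obtain ⟨hf, hi⟩ := invF_facts hr hσ hτ ττ
  have aσ' := aσ.inv
  refine av_of_lt (mk_Fx _ _) ?_
  intro i j k hij hjk hk h1 h2
  rw [mk_lt hf hi (by omega), mk_lt hf hi (by omega)] at h1
  rw [mk_lt hf hi (by omega), mk_lt hf hi (by omega)] at h2
  rcases inv_cases (r := r) (show i < N + 1 by omega) with h | h | ⟨h, h'⟩ | ⟨h, h', h''⟩ | h
  · rw [invF_1 h] at h1
    rcases inv_cases (r := r) (show k < N + 1 by omega) with g | g | ⟨g, g'⟩ | ⟨g, g', g''⟩ | g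
    · rw [invF_1 g] at h1 h2
      rw [invF_1 (show j < r by omega)] at h2
      exact aσ i j k hij hjk (by omega) (by omega)
    · subst g
      rw [invF_2] at h2
      rw [invF_1 (show j < k by omega)] at h2
      have : σ j < k := hσ.lt (by omega)
      omega
    · rw [invF_3 g g'] at h1
      have : τ (k - (r + 1)) < N - 1 - 2 * r := hτ.lt (by omega)
      omega
    · rw [invF_4 hr g' g''] at h1
      have : σ⁻¹ (k - (N - r)) < r := hσ.symm_lt (by omega)
      omega
    · subst g
      rw [invF_5 hr] at h1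
      omega
  · subst h
    rw [invF_2] at h1
    have := hf k hk
    omega
  · rw [invF_3 h h'] at h1
    rcases inv_cases (r := r) (show k < N + 1 by omega) with g | g | ⟨g, g'⟩ | ⟨g, g', g''⟩ | g
    · omega
    · omega
    · rw [invF_3 g g'] at h1 h2
      rw [invF_3 (show r < j by omega) (by omega)] at h2
      exact aτ (i - (r+1)) (j - (r+1)) (k - (r+1)) (by omega) (by omega) (by omega) (by omega)
    · rw [invF_4 hr g' g''] at h1
      have : σ⁻¹ (k - (N - r)) < r := hσ.symm_lt (by omega)
      omega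
    · subst g
      rw [invF_5 hr] at h1
      omega
  · rw [invF_4 hr h' h''] at h1
    rcases inv_cases (r := r) (show k < N + 1 by omega) with g | g | ⟨g, g'⟩ | ⟨g, g', g''⟩ | g
    · omega
    · omega
    · omega
    · rw [invF_4 hr g' g''] at h1 h2
      rw [invF_4 hr (show N - r ≤ j by omega) (by omega)] at h2
      exact aσ' (i - (N - r)) (j - (N - r)) (k - (N - r)) (by omega) (by omega) h1 h2
    · subst g
      rw [invF_5 hr] at h2
      rw [invF_4 hr (show k - r ≤ j by omega) (by omega)] at h2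
      have : σ⁻¹ (j - (k - r)) < r := hσ.symm_lt (by omega)
      omega
  · omega

theorem sq_eq_one_iff' {p : Perm ℕ} : p * p = 1 ↔ ∀ x, p (p x) = x := by
  constructor
  · intro h x
    have := congrArg (fun f : Perm ℕ => f x) h
    simpa using this
  · intro h
    ext x
    simpa using h x

open Classical in
theorem card_iset_top (N : ℕ) :
    ((iset (N + 1)).filter (fun p => p N ≠ N)).card =
      ∑ r ∈ Finset.range ((N + 1) / 2), (cset r).card * (iset (N - 1 - 2 * r)).card := by
  have : ∑ r ∈ Finset.range ((N + 1) / 2), (cset r).card * (iset (N - 1 - 2 * r)).card =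
      ((Finset.range ((N + 1) / 2)).sigma
        (fun r => (cset r) ×ˢ (iset (N - 1 - 2 * r)))).card := by
    rw [Finset.card_sigma]
    apply Finset.sum_congr rfl
    intro r _
    rw [Finset.card_product]
  rw [this]
  symm
  apply Finset.card_bij (fun a _ => mk (N + 1) (invF N a.1 a.2.1 a.2.2))
  · rintro ⟨r, σ, τ⟩ h
    simp only [Finset.mem_sigma, Finset.mem_range, Finset.mem_product, mem_cset, mem_iset] at h
    obtain ⟨hr, ⟨h1, h2⟩, h3, h4, h5⟩ := h
    rw [sq_eq_one_iff'] at h5
    have hr' : 2 * r + 1 ≤ N := by omega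
    obtain ⟨hf, hi⟩ := invF_facts hr' h1 h3 h5
    rw [Finset.mem_filter, mem_iset]
    refine ⟨⟨mk_Fx _ _, invF_av hr' h1 h3 h5 h2 h4, ?_⟩, ?_⟩
    · rw [sq_eq_one_iff']
      intro x
      simp only
      by_cases hx : x < N + 1
      · rw [mk_lt hf hi hx, mk_lt hf hi (hf x hx)]
        exact (invF_invol hr' h1 h3 h5 hx).1
      · rw [mk_Fx _ _ x (by omega), mk_Fx _ _ x (by omega)]
    · simp only
      rw [mk_lt hf hi (by omega), invF_5 hr']
      omega
  · rintro ⟨r, σ, τ⟩ h ⟨r', σ', τ'⟩ h' heq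
    simp only [Finset.mem_sigma, Finset.mem_range, Finset.mem_product, mem_cset, mem_iset] at h h'
    obtain ⟨hr, ⟨h1, h2⟩, h3, h4, h5⟩ := h
    obtain ⟨hr', ⟨h1', h2'⟩, h3', h4', h5'⟩ := h'
    simp only at heq
    rw [sq_eq_one_iff'] at h5 h5'
    have gr : 2 * r + 1 ≤ N := by omega
    have gr' : 2 * r' + 1 ≤ N := by omega
    obtain ⟨hf, hi⟩ := invF_facts gr h1 h3 h5
    obtain ⟨hf', hi'⟩ := invF_facts gr' h1' h3' h5'
    have key : ∀ x, x < N + 1 → invF N r σ τ x = invF N r' σ' τ' x := by
      intro x hx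
      rw [← mk_lt hf hi hx, ← mk_lt hf' hi' hx, heq]
    have hrr : r = r' := by
      have k1 := key N (by omega)
      rwa [invF_5 gr, invF_5 gr'] at k1
    subst hrr
    have hs : σ = σ' := by
      apply h1.ext h1'
      intro x hx
      have := key x (by omega)
      rw [invF_1 hx, invF_1 hx] at this
      omega
    have ht : τ = τ' := by
      apply h3.ext h3'
      intro x hx
      have := key (x + (r + 1)) (by omega)
      rw [invF_3 (by omega) (by omega), invF_3 (by omega) (by omega)] at this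
      simpa using this
    subst hs; subst ht; rfl
  · intro p hp
    rw [Finset.mem_filter, mem_iset] at hp
    obtain ⟨⟨hp, ha, hpp⟩, hN⟩ := hp
    rw [sq_eq_one_iff'] at hpp
    set r := p N with hrdef
    have hr : p r = N := hpp N
    have hrN := r_le hp hr
    have hrN' : r < N - r := block_le hp ha hr (show r < N by omega) le_rfl
    obtain ⟨σ, hσ, hσ2⟩ := restrict (N := r) (p := p) (φ := fun x => x)
      (ψ := fun y => y + (N - r)) (fun x y hxy _ => hxy) (fun x hx => by
        have := block_ge hp ha hr hx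
        exact ⟨p x - (N - r), by omega, by omega⟩)
    have inner : ∀ x, r < x → x < N - r → r < p x ∧ p x < N - r := by
      intro x h1 h2
      refine ⟨?_, block_le hp ha hr h1 (by omega)⟩
      by_contra hc
      rcases Nat.lt_or_ge (p x) r with h | h
      · have := (block_ge hp ha hr h).1
        rw [hpp] at this
        omega
      · have e : p x = r := by omega
        have e2 := hpp x
        rw [e, hr] at e2
        omega
    obtain ⟨τ, hτ, hτ2⟩ := restrict (N := N - 1 - 2 * r) (p := p) (φ := fun x => x + (r + 1))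
      (ψ := fun y => y + (r + 1)) (fun x y hxy _ => by omega) (fun x hx => by
        have := inner (x + (r + 1)) (by omega) (by omega)
        exact ⟨p (x + (r + 1)) - (r + 1), by omega, by omega⟩)
    have aσ : Av σ := by
      refine av_of_lt hσ ?_
      intro i j k hij hjk hk h1 h2
      have e1 := (hσ2 i (by omega)).2
      have e2 := (hσ2 j (by omega)).2
      have e3 := (hσ2 k (by omega)).2
      exact ha i j k hij hjk (by omega) (by omega)
    have aτ : Av τ := by
      refine av_of_lt hτ ?_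
      intro i j k hij hjk hk h1 h2
      have e1 := (hτ2 i (by omega)).2
      have e2 := (hτ2 j (by omega)).2
      have e3 := (hτ2 k (by omega)).2
      exact ha (i + (r+1)) (j + (r+1)) (k + (r+1)) (by omega) (by omega) (by omega) (by omega)
    have ττ : ∀ x, τ (τ x) = x := by
      intro x
      by_cases hx : x < N - 1 - 2 * r
      · obtain ⟨e1, e2⟩ := hτ2 x hx
        obtain ⟨e3, e4⟩ := hτ2 (τ x) e1
        rw [e2, hpp] at e4
        omega
      · rw [hτ x (by omega), hτ x (by omega)]
    refine ⟨⟨r, σ, τ⟩, ?_, ?_⟩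
    · simp only [Finset.mem_sigma, Finset.mem_range, Finset.mem_product, mem_cset, mem_iset]
      exact ⟨by omega, ⟨hσ, aσ⟩, hτ, aτ, sq_eq_one_iff'.mpr ττ⟩
    · have hr' : 2 * r + 1 ≤ N := by omega
      obtain ⟨hf, hi⟩ := invF_facts hr' hσ hτ ττ
      apply (mk_Fx _ _).ext hp
      intro x hx
      simp only
      rw [mk_lt hf hi hx]
      rcases inv_cases (r := r) hx with h | h | ⟨h, h'⟩ | ⟨h, h', h''⟩ | h
      · rw [invF_1 h]
        exact (hσ2 x h).2
      · rw [h, invF_2, hr]
      · rw [invF_3 h h']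
        have := (hτ2 (x - (r + 1)) (by omega)).2
        rw [this]
        congr 1
        omega
      · rw [invF_4 hr' h' h'']
        -- p x < r
        have hs1 : σ⁻¹ (x - (N - r)) < r := hσ.symm_lt (by omega)
        have hs2 := (hσ2 _ hs1).2
        rw [ai] at hs2
        have e : x - (N - r) + (N - r) = x := by omega
        rw [e] at hs2
        rw [hs2, hpp, ← hs2]
      · rw [h, invF_5 hr']

open Classical in
theorem filter_top_iset (N : ℕ) :
    (iset (N + 1)).filter (fun p => p N = N) = iset N := by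
  ext p
  rw [Finset.mem_filter, mem_iset, mem_iset]
  constructor
  · rintro ⟨⟨h1, h2, h3⟩, h4⟩
    refine ⟨fun x hx => ?_, h2, h3⟩
    rcases Nat.eq_or_lt_of_le hx with h | h
    · rw [← h]; exact h4
    · exact h1 x h
  · rintro ⟨h1, h2, h3⟩
    exact ⟨⟨h1.mono (by omega), h2, h3⟩, h1 N le_rfl⟩

theorem card_iset_succ (N : ℕ) :
    (iset (N + 1)).card = (iset N).card +
      ∑ r ∈ Finset.range ((N + 1) / 2), catalan r * (iset (N - 1 - 2 * r)).card := by
  classical
  rw [← Finset.card_filter_add_card_filter_not (s := iset (N + 1)) (fun p => p N = N)]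
  congr 1
  · rw [← filter_top_iset N]
  · have := card_iset_top N
    simp only [card_cset] at this
    rw [← this]

theorem card_iset_zero : (iset 0).card = 1 := by
  rw [Finset.card_eq_one]
  refine ⟨1, ?_⟩
  ext p
  rw [mem_iset, Finset.mem_singleton]
  constructor
  · rintro ⟨h, _⟩
    ext x
    exact h x (Nat.zero_le _)
  · rintro rfl
    exact ⟨fun x _ => rfl, av_one, one_mul 1⟩

end Pool.Agent.Helper45K9.PP
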