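import Pool.Agent.Helper45K9.PP.CubeCount

/-!
# Permutations of order at least four all of whose powers avoid 132: the structure of a generator
-/

set_option autoImplicit false

namespace Pool.Agent.Helper45K9.PP

open Equiv Finset

theorem inv_mono_of_av {q : Perm ℕ} (h : Av q) {a b : ℕ} (ha : q 0 ≤ a) (hab : a < b) :
    q⁻¹ a < q⁻¹ b := by
  by_contra hc
  have hne : q⁻¹ a ≠ q⁻¹ b := fun e => by have := q⁻¹.injective e; omega
  have h0 : q⁻¹ b ≠ 0 := by
    intro e
    rw [Perm.inv_eq_iff_eq] at e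
    omega
  have h1 : q⁻¹ a ≠ 0 → q 0 < a := by
    intro e
    rcases Nat.eq_or_lt_of_le ha with e' | e'
    · rw [Ne, Perm.inv_eq_iff_eq] at e; omega
    · exact e'
  have h2 := h1 (by omega)
  refine h 0 (q⁻¹ b) (q⁻¹ a) (by omega) (by omega) ?_ ?_
  · rw [ai]; exact h2
  · rw [ai, ai]; exact hab

/-- A generator: an element of order at least four, all powers of which avoid 132, not fixing
the last point, with the orbit of `0` in increasing order. -/
structure Gen (N l : ℕ) (g : Perm ℕ) : Prop where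
  fx : Fx (N + 1) g
  av : ∀ k : ℕ, Av (g ^ k)
  gN : g N ≠ N
  l4 : 4 ≤ l
  one : g ^ l = 1
  inc : ∀ i, i + 1 < l → (g ^ i) 0 < (g ^ (i + 1)) 0

namespace Gen

variable {N l : ℕ} {g : Perm ℕ}

theorem o_lt (h : Gen N l g) (i : ℕ) : (g ^ i) 0 < N + 1 := (h.fx.pow i).lt (by omega)

theorem mono (h : Gen N l g) {i j : ℕ} (hij : i < j) (hj : j < l) :
    (g ^ i) 0 < (g ^ j) 0 := by
  induction j with
  | zero => omega
  | succ j ih =>
    rcases Nat.eq_or_lt_of_le (Nat.lt_succ_iff.mp hij) with e | e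
    · subst e; exact h.inc i hj
    · exact (ih e (by omega)).trans (h.inc j hj)

theorem mono_le (h : Gen N l g) {i j : ℕ} (hij : i ≤ j) (hj : j < l) :
    (g ^ i) 0 ≤ (g ^ j) 0 := by
  rcases Nat.eq_or_lt_of_le hij with e | e
  · rw [e]
  · exact (h.mono e hj).le

theorem pow_inv_o (i j : ℕ) : (g ^ i)⁻¹ ((g ^ (i + j)) 0) = (g ^ j) 0 := by
  rw [Perm.inv_eq_iff_eq, pow_add, Perm.mul_apply]

theorem inv_o (j : ℕ) : g⁻¹ ((g ^ (j + 1)) 0) = (g ^ j) 0 := by
  rw [Perm.inv_eq_iff_eq, pow_succ', Perm.mul_apply]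

theorem g_o (j : ℕ) : g ((g ^ j) 0) = (g ^ (j + 1)) 0 := by
  rw [pow_succ', Perm.mul_apply]

theorem mono1 (h : Gen N l g) {a b : ℕ} (ha : (g ^ 1) 0 ≤ a) (hab : a < b) : g⁻¹ a < g⁻¹ b := by
  have := inv_mono_of_av (h.av 1) ha hab
  rwa [pow_one] at this

theorem inv_top (h : Gen N l g) : (g ^ (l - 1))⁻¹ = g := by
  have hl := h.l4
  rw [inv_eq_iff_mul_eq_one, ← pow_succ, Nat.sub_add_cancel (by omega), h.one]

/-- The last block is mapped below `o 1`. -/
theorem last (h : Gen N l g) {x : ℕ} (hx : (g ^ (l - 1)) 0 ≤ x) (hxN : x ≤ N) :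
    g x < (g ^ 1) 0 := by
  have hN : g N < (g ^ 1) 0 := by
    by_contra hc
    have h1 : g N < N + 1 := h.fx.lt (by omega)
    have h2 := h.gN
    have h3 := h.mono1 (not_lt.mp hc) (show g N < N by omega)
    rw [ia] at h3
    have h4 : g⁻¹ N < N + 1 := h.fx.inv.lt (by omega)
    omega
  rcases Nat.eq_or_lt_of_le hxN with e | e
  · rw [e]; exact hN
  · have h1 := inv_mono_of_av (h.av (l - 1)) hx e
    rw [h.inv_top] at h1
    exact h1.trans hN

theorem c1 (h : Gen N l g) {i y : ℕ} (hi : i + 1 < l) (hy : (g ^ (i + 1)) 0 ≤ y) :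
    (g ^ i) 0 ≤ g⁻¹ y := by
  rcases Nat.eq_or_lt_of_le hy with e | e
  · rw [← e, inv_o]
  · have h1 := h.mono1 (h.mono_le (show 1 ≤ i + 1 by omega) hi) e
    rw [inv_o] at h1
    exact h1.le

theorem c2 (h : Gen N l g) {i y : ℕ} (hy1 : (g ^ 1) 0 ≤ y) (hy : y < (g ^ (i + 1)) 0) :
    g⁻¹ y < (g ^ i) 0 := by
  have h1 := h.mono1 hy1 hy
  rwa [inv_o] at h1

theorem c3 (h : Gen N l g) {y : ℕ} (hy1 : (g ^ 1) 0 ≤ y) (hy : y ≤ N) :
    g⁻¹ y < (g ^ (l - 1)) 0 := by
  by_contra hc
  have h1 : g⁻¹ y < N + 1 := h.fx.inv.lt (by omega)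
  have h2 := h.last (not_lt.mp hc) (by omega)
  rw [ai] at h2
  omega

theorem d (h : Gen N l g) {i x : ℕ} (hx : x < (g ^ 1) 0) (hi : i + 2 < l) :
    (g ^ i) 0 ≤ (g ^ (i + 1)) x := by
  have hl := h.l4
  by_contra hc
  -- positions x < o (l-2-i) < o (l-1), values g^(i+1) x < o i < o (l-1)
  have h1 : (g ^ (l - 2 - i)) 0 < (g ^ (l - 1)) 0 := h.mono (by omega) (by omega)
  have h2 : (g ^ 1) 0 ≤ (g ^ (l - 2 - i)) 0 := h.mono_le (by omega) (by omega)
  have h3 : (g ^ (i + 1)) ((g ^ (l - 2 - i)) 0) = (g ^ (l - 1)) 0 := by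
    rw [← Perm.mul_apply, ← pow_add]
    congr 2
    omega
  have h4 : (g ^ (i + 1)) ((g ^ (l - 1)) 0) = (g ^ i) 0 := by
    rw [← Perm.mul_apply, ← pow_add, show i + 1 + (l - 1) = i + l by omega, pow_add, h.one,
      mul_one]
  refine h.av (i + 1) x ((g ^ (l - 2 - i)) 0) ((g ^ (l - 1)) 0) (by omega) h1 ?_ ?_
  · rw [h4]; omega
  · rw [h4, h3]; exact h.mono (by omega) (by omega)

/-- strict version -/
theorem d' (h : Gen N l g) {i x : ℕ} (hx : x < (g ^ 1) 0) (hi : i + 2 < l) :
    (g ^ i) 0 < (g ^ (i + 1)) x := by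
  have hl := h.l4
  rcases Nat.eq_or_lt_of_le (h.d hx hi) with e | e
  · exfalso
    have h4 : (g ^ (i + 1)) ((g ^ (l - 1)) 0) = (g ^ i) 0 := by
      rw [← Perm.mul_apply, ← pow_add, show i + 1 + (l - 1) = i + l by omega, pow_add, h.one,
        mul_one]
    rw [← h4] at e
    have := (g ^ (i + 1)).injective e
    have h5 : (g ^ 1) 0 ≤ (g ^ (l - 1)) 0 := h.mono_le (by omega) (by omega)
    omega
  · exact e

theorem exists_m (h : Gen N l g) : ∃ m, 1 ≤ m ∧ m ≤ (g ^ 1) 0 ∧
    (∀ x, x < m → (g ^ 1) 0 ≤ g⁻¹ x) ∧ (∀ x, m ≤ x → x < (g ^ 1) 0 → g⁻¹ x < (g ^ 1) 0) := by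
  classical
  have hl := h.l4
  have hex : ∃ y, g⁻¹ y < (g ^ 1) 0 := by
    refine ⟨(g ^ (0 + 1)) 0, ?_⟩
    rw [inv_o]
    exact h.mono (by omega) (by omega)
  refine ⟨Nat.find hex, ?_, ?_, ?_, ?_⟩
  · by_contra hc
    have h0 : Nat.find hex = 0 := by omega
    have h1 := Nat.find_spec hex
    rw [h0] at h1
    have h2 : g⁻¹ 0 = (g ^ (l - 1)) 0 := by
      rw [Perm.inv_eq_iff_eq, ← Perm.mul_apply, ← pow_succ', Nat.sub_add_cancel (by omega), h.one]
      rfl
    rw [h2] at h1
    have := h.mono_le (show 1 ≤ l - 1 by omega) (by omega)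
    omega
  · apply Nat.find_min'
    show g⁻¹ ((g ^ (0 + 1)) 0) < _
    rw [inv_o]
    exact h.mono (by omega) (by omega)
  · intro x hx
    exact not_lt.mp (Nat.find_min hex hx)
  · intro v hv hv1
    by_contra hc
    have hm := Nat.find_spec hex
    have hne : Nat.find hex ≠ v := fun e => hc (e ▸ hm)
    have ho1 : g ((g ^ 1) 0) = (g ^ 2) 0 := g_o 1
    have h12 : (g ^ 1) 0 < (g ^ 2) 0 := h.mono (by omega) (by omega)
    have hne2 : g⁻¹ v ≠ (g ^ 1) 0 := by
      intro e
      rw [Perm.inv_eq_iff_eq, ho1] at e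
      omega
    have av1 : Av g := by simpa using h.av 1
    refine av1 (g⁻¹ (Nat.find hex)) ((g ^ 1) 0) (g⁻¹ v) hm (by omega) ?_ ?_
    · rw [ai, ai]; omega
    · rw [ho1, ai]
      omega

/-- The block containing `z`. -/
theorem exists_block (h : Gen N l g) {z : ℕ} (hz : (g ^ 1) 0 ≤ z) (hz' : z < (g ^ (l - 1)) 0) :
    ∃ j, 1 ≤ j ∧ j + 1 < l ∧ (g ^ j) 0 ≤ z ∧ z < (g ^ (j + 1)) 0 := by
  classical
  have hl := h.l4
  have hex : ∃ j, 1 ≤ j ∧ z < (g ^ (j + 1)) 0 := by
    refine ⟨l - 2, by omega, ?_⟩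
    rwa [show l - 2 + 1 = l - 1 by omega]
  have h1 := Nat.find_spec hex
  have h2 : Nat.find hex ≤ l - 2 := by
    apply Nat.find_min'
    refine ⟨by omega, ?_⟩
    rwa [show l - 2 + 1 = l - 1 by omega]
  refine ⟨Nat.find hex, h1.1, by omega, ?_, h1.2⟩
  rcases Nat.eq_or_lt_of_le h1.1 with e | e
  · rw [← e]; exact hz
  · have h3 := Nat.find_min hex (m := Nat.find hex - 1) (by omega)
    by_contra hc
    apply h3
    refine ⟨by omega, ?_⟩
    rw [show Nat.find hex - 1 + 1 = Nat.find hex by omega]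
    omega

end Gen

/-- A generator together with its block length `m`. -/
structure GenM (N l m : ℕ) (g : Perm ℕ) : Prop extends Gen N l g where
  m1 : 1 ≤ m
  mo : m ≤ (g ^ 1) 0
  lo : ∀ x, x < m → (g ^ 1) 0 ≤ g⁻¹ x
  hi : ∀ x, m ≤ x → x < (g ^ 1) 0 → g⁻¹ x < (g ^ 1) 0

theorem Gen.toGenM {N l : ℕ} {g : Perm ℕ} (h : Gen N l g) : ∃ m, GenM N l m g := by
  obtain ⟨m, a, b, c, d⟩ := h.exists_m
  exact ⟨m, h, a, b, c, d⟩

namespace GenM

variable {N l m : ℕ} {g : Perm ℕ}

/-- If `x ≥ o 1` then the value at `x` is `< m` or `≥ o 1`. -/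
theorem dich (h : GenM N l m g) {x : ℕ} (hx : (g ^ 1) 0 ≤ x) : g x < m ∨ (g ^ 1) 0 ≤ g x := by
  by_contra hc
  have := h.hi (g x) (by omega) (by omega)
  rw [ia] at this
  omega

theorem upper (h : GenM N l m g) {z z' : ℕ} (hz : g z < m) (hzz : z < z') (hz' : z' ≤ N) :
    g z' < m := by
  have hl := h.l4
  have hz1 : (g ^ 1) 0 ≤ z := by
    have := h.lo _ hz
    rwa [ia] at this
  by_contra hc
  have hz2 : z' < (g ^ (l - 1)) 0 := by
    by_contra hc2
    have h1 := h.last (not_lt.mp hc2) hz'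
    have h2 := h.dich (x := z') (by omega)
    omega
  -- z is in the block l - 2
  have key : ∀ j, 1 ≤ j → j + 1 < l → (g ^ j) 0 ≤ z → z < (g ^ (j + 1)) 0 → j = l - 2 := by
    intro j hj1 hj2 ha hb
    by_contra hne
    have h1 := inv_mono_of_av (h.av j) ha hb
    rw [Gen.pow_inv_o] at h1
    have h2 := h.d' (i := j) h1 (by omega)
    have h3 : (g ^ (j + 1)) ((g ^ j)⁻¹ z) = g z := by
      rw [pow_succ', Perm.mul_apply, ai]
    rw [h3] at h2
    have h4 := h.mono_le hj1 (by omega)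
    have h5 := h.mo
    omega
  obtain ⟨j, hj1, hj2, hja, hjb⟩ := h.exists_block hz1 (by omega)
  have hj := key j hj1 hj2 hja hjb
  subst hj
  rw [show l - 2 + 1 = l - 1 by omega] at hjb
  -- y and a
  have hya : (g ^ (l - 2))⁻¹ z < (g ^ (l - 2))⁻¹ z' := inv_mono_of_av (h.av (l - 2)) hja hzz
  have ha1 : (g ^ (l - 2))⁻¹ z' < (g ^ 1) 0 := by
    have h1 := inv_mono_of_av (h.av (l - 2)) (show (g ^ (l - 2)) 0 ≤ z' by omega) hz2
    rw [show l - 1 = l - 2 + 1 by omega, Gen.pow_inv_o] at h1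
    exact h1
  have hinv : ∀ w, g⁻¹ ((g ^ (l - 2))⁻¹ w) = g w := by
    intro w
    rw [← Perm.mul_apply, ← mul_inv_rev, ← pow_succ, show l - 2 + 1 = l - 1 by omega, h.inv_top]
  have hy : m ≤ (g ^ (l - 2))⁻¹ z := by
    by_contra hc2
    have h1 := h.lo _ (not_le.mp hc2)
    rw [hinv] at h1
    have h2 := h.mo
    omega
  have haa := h.hi ((g ^ (l - 2))⁻¹ z') (by omega) ha1
  rw [hinv] at haa
  have h2 := h.dich (x := z') (by omega)
  omega

/-- The set of positions of the values `< m` is `[N + 1 - m, N]`. -/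
theorem top_iff (h : GenM N l m g) {z : ℕ} (hz : z ≤ N) : g z < m ↔ N + 1 - m ≤ z := by
  have hmN : m ≤ N + 1 := by
    have h1 := h.mo
    have h2 := h.o_lt 1
    omega
  constructor
  · intro h1
    have hmap : ∀ y ∈ Finset.Icc z N, g y ∈ Finset.range m := by
      intro y hy
      rw [Finset.mem_Icc] at hy
      rw [Finset.mem_range]
      rcases Nat.eq_or_lt_of_le hy.1 with e | e
      · rw [← e]; exact h1
      · exact h.upper h1 e hy.2
    have := Finset.card_le_card_of_injOn (fun y => g y) hmap (fun a _ b _ h => g.injective h)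
    simp at this
    omega
  · intro h1
    by_contra hc
    have hmap : ∀ y ∈ Finset.range m, g⁻¹ y ∈ Finset.Ioc z N := by
      intro y hy
      rw [Finset.mem_range] at hy
      rw [Finset.mem_Ioc]
      have h2 : g⁻¹ y < N + 1 := h.fx.inv.lt (by omega)
      refine ⟨?_, by omega⟩
      by_contra hc2
      rcases Nat.eq_or_lt_of_le (not_lt.mp hc2) with e | e
      · rw [← e, ai] at hc; omega
      · have := h.upper (z := g⁻¹ y) (z' := z) (by rw [ai]; exact hy) e hz
        omega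
    have := Finset.card_le_card_of_injOn (fun y => g⁻¹ y) hmap
      (fun a _ b _ h => g⁻¹.injective h)
    simp at this
    omega

theorem mid_inv (h : GenM N l m g) {y : ℕ} (hy : m ≤ y) (hy1 : y < (g ^ 1) 0) : g⁻¹ y < m := by
  by_contra hc
  have hl := h.l4
  have h1 := h.hi y hy hy1
  have h2 := h.hi (g⁻¹ y) (not_lt.mp hc) h1
  have h3 := h.d' (i := 1) h2 (by omega)
  have h4 : (g ^ (1 + 1)) (g⁻¹ (g⁻¹ y)) = y := by
    rw [pow_succ, pow_one, Perm.mul_apply, ai, ai]
  rw [h4] at h3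
  omega

theorem m_lt (h : GenM N l m g) : m < N + 1 - m := by
  have hl := h.l4
  have h1 := h.o_lt 1
  have h2 := h.mo
  have h3 := (h.top_iff (z := (g ^ 1) 0) (by omega)).not
  rw [Gen.g_o] at h3
  have h4 : (g ^ 1) 0 < (g ^ (1 + 1)) 0 := h.mono (by omega) (by omega)
  have h5 : ¬ N + 1 - m ≤ (g ^ 1) 0 := h3.mp (by omega)
  omega

theorem shift (h : GenM N l m g) {x : ℕ} (hx : m ≤ x) (hx' : x < N + 1 - m) : g x = x + m := by
  have hxN : x ≤ N := by omega
  have h1 : m ≤ g x := by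
    by_contra hc
    have := (h.top_iff hxN).mp (by omega)
    omega
  have h2 : (g ^ 1) 0 ≤ g x := by
    by_contra hc
    have := h.mid_inv h1 (by omega)
    rw [ia] at this
    omega
  have h3 : x ≤ g x - m := by
    have hmap : ∀ t ∈ Finset.range x, g t ∈ Finset.Ico m (g x) := by
      intro t ht
      rw [Finset.mem_range] at ht
      rw [Finset.mem_Ico]
      constructor
      · by_contra hc
        have := (h.top_iff (z := t) (by omega)).mp (by omega)
        omega
      · by_contra hc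
        rcases Nat.eq_or_lt_of_le (not_lt.mp hc) with e | e
        · have := g.injective e; omega
        · have := h.mono1 h2 e
          rw [ia, ia] at this
          omega
    have := Finset.card_le_card_of_injOn (fun y => g y) hmap (fun a _ b _ h => g.injective h)
    simpa using this
  have h4 : g x - m ≤ x := by
    have hmap : ∀ y ∈ Finset.Ico m (g x), g⁻¹ y ∈ Finset.range x := by
      intro y hy
      rw [Finset.mem_Ico] at hy
      rw [Finset.mem_range]
      by_cases hy1 : y < (g ^ 1) 0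
      · have := h.mid_inv hy.1 hy1
        omega
      · have := h.mono1 (not_lt.mp hy1) hy.2
        rwa [ia] at this
    have := Finset.card_le_card_of_injOn (fun y => g⁻¹ y) hmap
      (fun a _ b _ h => g⁻¹.injective h)
    simpa using this
  omega

theorem low (h : GenM N l m g) {t : ℕ} (ht : t < m) : m ≤ g t ∧ g t < 2 * m := by
  have hm := h.m_lt
  constructor
  · by_contra hc
    have := (h.top_iff (z := t) (by omega)).mp (by omega)
    omega
  · by_contra hc
    have h1 := h.shift (x := m) le_rfl hm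
    have h2 : (g ^ 1) 0 ≤ g m := by
      by_contra hc2
      have := h.mid_inv (y := g m) (by omega) (by omega)
      rw [ia] at this
      omega
    rcases Nat.eq_or_lt_of_le (show g m ≤ g t by omega) with e | e
    · have := g.injective e; omega
    · have := h.mono1 h2 e
      rw [ia, ia] at this
      omega

theorem pow_ge (h : GenM N l m g) {y : ℕ} (hy : y < m) (k : ℕ) (hk : k + 1 < l) :
    m ≤ (g ^ (k + 1)) y := by
  have hl := h.l4
  have hmo := h.mo
  rcases Nat.eq_zero_or_pos k with e | e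
  · rw [e, zero_add, pow_one]; exact (h.low hy).1
  · by_cases hk2 : k + 2 < l
    · have h1 := h.d (i := k) (x := y) (by omega) hk2
      have h2 := h.mono_le (show 1 ≤ k by omega) (by omega)
      omega
    · by_contra hc
      have hk3 : k + 1 = l - 1 := by omega
      have h1 := (h.low (t := (g ^ (k + 1)) y) (by omega)).1
      rw [← Perm.mul_apply, ← pow_succ', hk3, Nat.sub_add_cancel (by omega), h.one] at h1
      simp at h1
      omega

theorem pow_lt (h : GenM N l m g) {y : ℕ} (hy : y < m) (k : ℕ) (hk : k + 2 < l) :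
    (g ^ (k + 1)) y < N + 1 - m := by
  have h1 := h.pow_ge hy (k + 1) (by omega)
  have hm := h.m_lt
  have h2 : (g ^ (k + 1)) y < N + 1 := (h.fx.pow _).lt (by omega)
  by_contra hc
  have h3 := (h.top_iff (z := (g ^ (k + 1)) y) (by omega)).mpr (by omega)
  rw [← Perm.mul_apply, ← pow_succ'] at h3
  omega

theorem pow_eq (h : GenM N l m g) {y : ℕ} (hy : y < m) (k : ℕ) (hk : k + 1 < l) :
    (g ^ (k + 1)) y = g y + k * m := by
  induction k with
  | zero => simp
  | succ k ih =>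
    rw [pow_succ', Perm.mul_apply, h.shift (h.pow_ge hy k (by omega)) (h.pow_lt hy k (by omega)),
      ih (by omega)]
    ring

theorem surj_low (h : GenM N l m g) : ∃ y, y < m ∧ g y = 2 * m - 1 := by
  have hm := h.m1
  by_contra hc
  push Not at hc
  have hmap : ∀ t ∈ Finset.range m, g t ∈ Finset.Ico m (2 * m - 1) := by
    intro t ht
    rw [Finset.mem_range] at ht
    rw [Finset.mem_Ico]
    have h1 := h.low ht
    have h2 := hc t ht
    omega
  have := Finset.card_le_card_of_injOn (fun y => g y) hmap (fun a _ b _ h => g.injective h)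
  simp at this
  omega

theorem l_mul_le (h : GenM N l m g) : 4 * m ≤ N + 1 := by
  obtain ⟨y, hy, hy2⟩ := h.surj_low
  have hl := h.l4
  have h1 := h.pow_eq hy 2 (by omega)
  have h2 := h.pow_lt hy 0 (by omega)
  have h3 := h.pow_lt hy 1 (by omega)
  have h4 : (g ^ (2 + 1)) y < N + 1 := (h.fx.pow _).lt (by have := h.m_lt; omega)
  have := h.m1
  omega

theorem inj {l' : ℕ} {g' : Perm ℕ} (h : GenM N l m g) (h' : GenM N l' m g')
    (he : ∀ x, x < m → g x = g' x) : g = g' := by
  have hm1 := h.m1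
  -- orders agree
  have hll : ∀ {l l' : ℕ} {g g' : Perm ℕ}, GenM N l m g → GenM N l' m g' →
      (∀ x, x < m → g x = g' x) → l ≤ l' := by
    intro l l' g g' h h' he
    by_contra hc
    have hl := h.l4
    have hl' := h'.l4
    have a := h'.pow_eq (y := 0) (by omega) (l' - 2) (by omega)
    have b := h.pow_eq (y := 0) (by omega) (l' - 2) (by omega)
    have c := h.pow_ge (y := 0) (by omega) (l' - 1) (by omega)
    rw [show l' - 1 + 1 = (l' - 2 + 1) + 1 by omega, pow_succ', Perm.mul_apply] at c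
    have d := h'.one
    rw [show l' = (l' - 2 + 1) + 1 by omega, pow_succ'] at d
    have e := congrArg (fun f : Perm ℕ => f 0) d
    simp only [Perm.mul_apply, Perm.one_apply] at e
    -- g' z = 0 where z = (g' ^ (l'-1)) 0 = (g ^ (l'-1)) 0
    have f1 : (g' ^ (l' - 2 + 1)) 0 < N + 1 := (h'.fx.pow _).lt (by omega)
    have f2 := (h'.top_iff (z := (g' ^ (l' - 2 + 1)) 0) (by omega)).mp (by omega)
    have f3 : (g ^ (l' - 2 + 1)) 0 = (g' ^ (l' - 2 + 1)) 0 := by
      rw [a, b, he 0 (by omega)]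
    rw [← f3] at f1 f2
    have f4 := (h.top_iff (z := (g ^ (l' - 2 + 1)) 0) (by omega)).mpr f2
    omega
  have hl1 := hll h h' he
  have hl2 := hll h' h (fun x hx => (he x hx).symm)
  have hle : l = l' := le_antisymm hl1 hl2
  subst hle
  apply h.fx.ext h'.fx
  intro x hx
  by_cases h1 : x < m
  · exact he x h1
  by_cases h2 : x < N + 1 - m
  · rw [h.shift (by omega) h2, h'.shift (by omega) h2]
  · have hy := (h.top_iff (z := x) (by omega)).mpr (by omega)
    have hl := h.l4
    have e1 : (g ^ (l - 2 + 1)) (g x) = x := by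
      rw [← Perm.mul_apply, ← pow_succ, show l - 2 + 1 + 1 = l by omega, h.one]
      rfl
    have e2 := h.pow_eq hy (l - 2) (by omega)
    have e3 := h'.pow_eq hy (l - 2) (by omega)
    rw [← he _ hy, ← e2, e1] at e3
    -- (g' ^ (l-1)) (g x) = x, apply g'
    have e4 := congrArg g' e3
    rw [← Perm.mul_apply, ← pow_succ', show l - 2 + 1 + 1 = l by omega, h'.one] at e4
    simpa using e4

end GenM

end Pool.Agent.Helper45K9.PP
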